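import Pool.Agent.Y167.Dom

/-!
# The Siegel property for rational polyhedral cones, and the descent to fixed spaces
-/

set_option autoImplicit false

namespace Pool.Agent.R299.CDE

open Pool.Agent.Y167 Finset Filter Topology

variable {W : Type*} [AddCommGroup W] [Module ℝ W] {L : AddSubgroup W} {Nf : Set W}
  {ξ₀ : W →ₗ[ℝ] ℝ} {y₀ : W} {Y : Finset W}

/-- The interior points of the cone, in terms of an interior point `y₀`. -/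
def Inn (Nf : Set W) (y₀ : W) (x : W) : Prop := ∃ t : ℝ, 0 < t ∧ x - t • y₀ ∈ Nf

theorem Inn.mem (D : CData L Nf ξ₀ y₀ Y) {x : W} (hx : Inn Nf y₀ x) : x ∈ Nf := by
  obtain ⟨t, ht, h⟩ := hx
  have h1 := D.add _ h _ (D.smul t ht.le _ D.y_N)
  rwa [sub_add_cancel] at h1

theorem Inn.bound (D : CData L Nf ξ₀ y₀ Y) {x : W} (hx : Inn Nf y₀ x) (y : W) :
    ∃ K : ℝ, 0 < K ∧ ∀ M, K ≤ M → M • x - y ∈ Nf := by
  obtain ⟨t, ht, h⟩ := hx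
  obtain ⟨C, hC, h2⟩ := D.y_int y
  refine ⟨C / t, div_pos hC ht, fun M hM => ?_⟩
  have h3 := D.add _ (D.add _ (D.smul (C / t) (div_pos hC ht).le _ h) _ h2) _
    (D.smul (M - C / t) (by linarith) _ (Inn.mem D ⟨t, ht, h⟩))
  have h4 : (C / t) • (x - t • y₀) + (C • y₀ - y) + (M - C / t) • x = M • x - y := by
    rw [smul_sub, smul_smul, div_mul_cancel₀ _ ht.ne', sub_smul]
    abel
  rwa [h4] at h3

theorem Inn.bound_finset (D : CData L Nf ξ₀ y₀ Y) {x : W} (hx : Inn Nf y₀ x) (S : Finset W) :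
    ∃ K : ℝ, 0 < K ∧ ∀ y ∈ S, K • x - y ∈ Nf := by
  classical
  choose K hK hK2 using fun y => hx.bound D y
  refine ⟨1 + ∑ y ∈ S, K y, ?_, fun y hy => hK2 y _ ?_⟩
  · have : 0 ≤ ∑ y ∈ S, K y := Finset.sum_nonneg fun y _ => (hK y).le
    linarith
  · have : K y ≤ ∑ y ∈ S, K y := Finset.single_le_sum (f := K) (fun y _ => (hK y).le) hy
    linarith

theorem Inn.map (D : CData L Nf ξ₀ y₀ Y) {x : W} (hx : Inn Nf y₀ x) {g : W ≃ₗ[ℝ] W}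
    (hg : ∀ x ∈ Nf, g x ∈ Nf) : Inn Nf y₀ (g x) := by
  obtain ⟨t, ht, h⟩ := hx
  obtain ⟨C, hC, h2⟩ := D.y_int (g.symm y₀)
  refine ⟨t / C, div_pos ht hC, ?_⟩
  have h3 := D.add _ (hg _ h) _ (D.smul (t / C) (div_pos ht hC).le _ (hg _ h2))
  have h4 : g (x - t • y₀) + (t / C) • g (C • y₀ - g.symm y₀) = g x - (t / C) • y₀ := by
    rw [map_sub, map_sub, map_smul, map_smul, smul_sub, smul_smul, div_mul_cancel₀ _ hC.ne',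
      LinearEquiv.apply_symm_apply]
    abel
  rwa [h4] at h3

theorem sum_mem_Nf (D : CData L Nf ξ₀ y₀ Y) {S : Finset W} (hS : ∀ a ∈ S, a ∈ L ∧ a ∈ Nf)
    (c : W → ℝ) (hc : ∀ a ∈ S, 0 ≤ c a) : ∑ a ∈ S, c a • a ∈ Nf := by
  classical
  induction S using Finset.induction_on with
  | empty =>
    rw [Finset.sum_empty]
    have := D.smul 0 le_rfl _ D.y_N
    rwa [zero_smul] at this
  | insert a S ha ih =>
    rw [Finset.sum_insert ha]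
    refine D.add _ (D.smul _ (hc a (Finset.mem_insert_self _ _)) _
      (hS a (Finset.mem_insert_self _ _)).2) _ (ih (fun b hb => hS b (Finset.mem_insert_of_mem hb))
        fun b hb => hc b (Finset.mem_insert_of_mem hb))

/-- The Siegel property, for the interior of one face. -/
theorem siegel_face (D : CData L Nf ξ₀ y₀ Y) (𝒢 : Subgroup (W ≃ₗ[ℝ] W))
    (hL : ∀ g ∈ 𝒢, ∀ x ∈ L, g x ∈ L) (hN : ∀ g ∈ 𝒢, ∀ x ∈ Nf, g x ∈ Nf)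
    (I F : Finset W) (hI : ∀ a ∈ I, a ∈ L ∧ a ∈ Nf) (hF : ∀ a ∈ F, a ∈ L ∧ a ∈ Nf)
    (hx : Inn Nf y₀ (∑ a ∈ I, a)) :
    {g : W ≃ₗ[ℝ] W | g ∈ 𝒢 ∧ ∃ c : W → ℝ, (∀ a ∈ I, 0 < c a) ∧
      g (∑ a ∈ I, c a • a) ∈ cone F}.Finite := by
  classical
  have hc1 : ∀ x ∈ Nf, 1 * ξ₀ x ≤ ξ₀ x := fun x _ => by rw [one_mul]
  obtain ⟨T1, hT1𝒢, hT1⟩ := D.exists_dickson 𝒢 hL hN D.xi_int one_pos hc1 I hI
  obtain ⟨T2, hT2𝒢, hT2⟩ := D.exists_dickson 𝒢 hL hN D.xi_int one_pos hc1 F hF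
  obtain ⟨K, hK, hKY⟩ := hx.bound_finset D Y
  set B : ℝ := ∑ t ∈ T1, ξ₀ (t (∑ a ∈ I, a)) with hB
  have hxN : ∑ a ∈ I, a ∈ Nf := Inn.mem D hx
  have hfin := D.finite_small 𝒢 hL hN (K * B)
  have hfin2 : (⋃ t ∈ T2, (fun g : W ≃ₗ[ℝ] W => t⁻¹ * g) ''
      {g : W ≃ₗ[ℝ] W | g ∈ 𝒢 ∧ ∀ y ∈ Y, ξ₀ (g y) ≤ K * B}).Finite :=
    T2.finite_toSet.biUnion fun t _ => hfin.image _
  refine hfin2.subset ?_
  rintro g ⟨hg, c, hc, hgF⟩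
  have hT2ne : T2.Nonempty := by
    obtain ⟨t, ht, -⟩ := hT2 1 𝒢.one_mem
    exact ⟨t, ht⟩
  obtain ⟨t2, ht2, hmin⟩ := Finset.exists_min_image T2 (fun t => ξ₀ (t (g (∑ a ∈ I, c a • a)))) hT2ne
  have hmin2 : ∀ g' ∈ 𝒢, ξ₀ (t2 (g (∑ a ∈ I, c a • a))) ≤ ξ₀ (g' (∑ a ∈ I, c a • a)) := by
    intro g' hg'
    obtain ⟨t, ht, h1⟩ := hT2 (g' * g⁻¹) (𝒢.mul_mem hg' (𝒢.inv_mem hg))
    have h2 : ξ₀ ((t : W →ₗ[ℝ] W) (g (∑ a ∈ I, c a • a))) ≤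
        ξ₀ (((g' * g⁻¹ : W ≃ₗ[ℝ] W) : W →ₗ[ℝ] W) (g (∑ a ∈ I, c a • a))) :=
      CData.le_of_cone (fun a ha => h1 a ha) hgF
    have h3 : ((g' * g⁻¹ : W ≃ₗ[ℝ] W) : W →ₗ[ℝ] W) (g (∑ a ∈ I, c a • a)) =
        g' (∑ a ∈ I, c a • a) := by
      have : ((g' * g⁻¹ : W ≃ₗ[ℝ] W) : W →ₗ[ℝ] W) (g (∑ a ∈ I, c a • a)) =
        (g' * g⁻¹ * g) (∑ a ∈ I, c a • a) := rfl
      rw [this, inv_mul_cancel_right]
    rw [h3] at h2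
    exact (hmin t ht).trans h2
  obtain ⟨t1, ht1, h1⟩ := hT1 (t2 * g) (𝒢.mul_mem (hT2𝒢 t2 ht2) hg)
  have h2 := hmin2 t1 (hT1𝒢 t1 ht1)
  have e1 : ξ₀ (t2 (g (∑ a ∈ I, c a • a))) = ∑ a ∈ I, c a * ξ₀ ((t2 * g) a) := by
    simp only [map_sum, map_smul, smul_eq_mul]
    rfl
  have e2 : ξ₀ (t1 (∑ a ∈ I, c a • a)) = ∑ a ∈ I, c a * ξ₀ (t1 a) := by
    simp only [map_sum, map_smul, smul_eq_mul]
  rw [e1, e2] at h2
  have h3 : ∀ a ∈ I, c a * (ξ₀ ((t2 * g) a) - ξ₀ (t1 a)) = 0 := by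
    refine (Finset.sum_eq_zero_iff_of_nonneg fun a ha =>
      mul_nonneg (hc a ha).le (sub_nonneg.2 (h1 a ha))).1 ?_
    refine le_antisymm ?_ (Finset.sum_nonneg fun a ha =>
      mul_nonneg (hc a ha).le (sub_nonneg.2 (h1 a ha)))
    simp only [mul_sub, Finset.sum_sub_distrib]
    linarith
  have h4 : ξ₀ ((t2 * g) (∑ a ∈ I, a)) = ξ₀ (t1 (∑ a ∈ I, a)) := by
    simp only [map_sum]
    refine Finset.sum_congr rfl fun a ha => ?_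
    have := h3 a ha
    rcases mul_eq_zero.1 this with h | h
    · exact absurd h (hc a ha).ne'
    · linarith
  have h5 : ξ₀ ((t2 * g) (∑ a ∈ I, a)) ≤ B := by
    rw [h4, hB]
    exact Finset.single_le_sum (f := fun t : W ≃ₗ[ℝ] W => ξ₀ (t (∑ a ∈ I, a)))
      (fun t ht => D.xi_nonneg (hN t (hT1𝒢 t ht) _ hxN)) ht1
  refine Set.mem_biUnion ht2 ⟨t2 * g, ⟨𝒢.mul_mem (hT2𝒢 t2 ht2) hg, fun y hy => ?_⟩, ?_⟩
  · have h6 := hN (t2 * g) (𝒢.mul_mem (hT2𝒢 t2 ht2) hg) _ (hKY y hy)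
    have h7 := D.xi_nonneg h6
    rw [map_sub, map_sub, map_smul, map_smul, smul_eq_mul, sub_nonneg] at h7
    exact h7.trans (mul_le_mul_of_nonneg_left h5 hK.le)
  · simp [inv_mul_cancel_left]

/-- **The Siegel property** for rational polyhedral cones. -/
theorem siegel (D : CData L Nf ξ₀ y₀ Y) (𝒢 : Subgroup (W ≃ₗ[ℝ] W))
    (hL : ∀ g ∈ 𝒢, ∀ x ∈ L, g x ∈ L) (hN : ∀ g ∈ 𝒢, ∀ x ∈ Nf, g x ∈ Nf)
    (F1 F : Finset W) (hF1 : ∀ a ∈ F1, a ∈ L ∧ a ∈ Nf) (hF : ∀ a ∈ F, a ∈ L ∧ a ∈ Nf) :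
    {g : W ≃ₗ[ℝ] W | g ∈ 𝒢 ∧ ∃ x ∈ cone F1, Inn Nf y₀ x ∧ g x ∈ cone F}.Finite := by
  classical
  have hfin : (⋃ I ∈ F1.powerset, {g : W ≃ₗ[ℝ] W | Inn Nf y₀ (∑ a ∈ I, a) ∧ g ∈ 𝒢 ∧
      ∃ c : W → ℝ, (∀ a ∈ I, 0 < c a) ∧ g (∑ a ∈ I, c a • a) ∈ cone F}).Finite := by
    refine F1.powerset.finite_toSet.biUnion fun I hI => ?_
    have hIF : I ⊆ F1 := by simpa using hI
    by_cases hx : Inn Nf y₀ (∑ a ∈ I, a)
    · refine (siegel_face D 𝒢 hL hN I F (fun a ha => hF1 a (hIF ha)) hF hx).subset ?_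
      rintro g ⟨-, h1, h2⟩
      exact ⟨h1, h2⟩
    · refine Set.finite_empty.subset ?_
      rintro g ⟨h1, -⟩
      exact absurd h1 hx
  refine hfin.subset ?_
  rintro g ⟨hg, x, ⟨c, hc, hx⟩, hxi, hgx⟩
  let I := F1.filter fun a => 0 < c a
  have hxI : x = ∑ a ∈ I, c a • a := by
    rw [hx]
    symm
    refine Finset.sum_filter_of_ne fun a _ hne => ?_
    refine lt_of_le_of_ne (hc a) fun h0 => hne ?_
    rw [← h0, zero_smul]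
  have hIF : I ⊆ F1 := Finset.filter_subset _ _
  refine Set.mem_biUnion (x := I) (by simpa using hIF) ⟨?_, hg, c, fun a ha =>
    (Finset.mem_filter.1 ha).2, by rw [← hxI]; exact hgx⟩
  -- the sum of the generators is an interior point
  obtain ⟨t, ht, h1⟩ := hxi
  set M : ℝ := 1 + ∑ a ∈ I, c a with hM
  have hMpos : 0 < M := by
    have : 0 ≤ ∑ a ∈ I, c a := Finset.sum_nonneg fun a _ => hc a
    linarith
  have h2 : ∑ a ∈ I, (M - c a) • a ∈ Nf := by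
    refine sum_mem_Nf D (fun a ha => hF1 a (hIF ha)) _ fun a ha => ?_
    have : c a ≤ ∑ a ∈ I, c a := Finset.single_le_sum (f := c) (fun y _ => hc y) ha
    linarith
  refine ⟨t / M, div_pos ht hMpos, ?_⟩
  have h3 := D.smul (1 / M) (by positivity) _ (D.add _ h2 _ h1)
  have h4 : (1 / M) • (∑ a ∈ I, (M - c a) • a + (x - t • y₀)) = ∑ a ∈ I, a - (t / M) • y₀ := by
    have h5 : ∑ a ∈ I, (M - c a) • a = M • ∑ a ∈ I, a - x := by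
      rw [hxI, Finset.smul_sum, ← Finset.sum_sub_distrib]
      exact Finset.sum_congr rfl fun a _ => sub_smul _ _ _
    rw [h5]
    have h6 : M • ∑ a ∈ I, a - x + (x - t • y₀) = M • ∑ a ∈ I, a - t • y₀ := by abel
    rw [h6, smul_sub, smul_smul, smul_smul, one_div, inv_mul_cancel₀ hMpos.ne', one_smul,
      div_eq_inv_mul]
  rwa [h4] at h3

/-- If the translates of a rational polyhedral cone cover the interior, then they cover the convex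
hull of the rational points. -/
theorem cover_closure (D : CData L Nf ξ₀ y₀ Y) (𝒢 : Subgroup (W ≃ₗ[ℝ] W))
    (hL : ∀ g ∈ 𝒢, ∀ x ∈ L, g x ∈ L) (hN : ∀ g ∈ 𝒢, ∀ x ∈ Nf, g x ∈ Nf)
    (F0 : Finset W) (hF0 : ∀ a ∈ F0, a ∈ L ∧ a ∈ Nf)
    (hcov0 : ∀ x, Inn Nf y₀ x → ∃ g ∈ 𝒢, g x ∈ cone F0) :
    ∀ x ∈ Cp L Nf, ∃ g ∈ 𝒢, g x ∈ cone F0 := by
  classical
  let F := F0.filter (· ≠ 0)
  have hFF0 : ∀ x, x ∈ cone F0 → x ∈ cone F := by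
    intro x hx
    refine cone_le (fun a ha => ?_) hx
    by_cases h : a = 0
    · rw [h]; exact zero_mem_cone F
    · exact mem_cone_self (Finset.mem_filter.2 ⟨ha, h⟩)
  have hF : ∀ a ∈ F, a ∈ L ∧ a ∈ Nf := fun a ha => hF0 a (Finset.mem_filter.1 ha).1
  have hFpos : ∀ a ∈ F, 0 < ξ₀ a := fun a ha =>
    D.xi_pos a (hF a ha).2 (Finset.mem_filter.1 ha).2
  rintro x ⟨A', hA', hx⟩
  let δ : ℕ → ℝ := fun n => 1 / ((n : ℝ) + 1)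
  have hδpos : ∀ n, 0 < δ n := fun n => by simp only [δ]; positivity
  have hδ : Tendsto δ atTop (𝓝 0) := tendsto_one_div_add_atTop_nhds_zero_nat
  have hxN : x ∈ Nf := D.cone_Nf hA' hx
  have hin : ∀ n, Inn Nf y₀ (x + δ n • y₀) := fun n =>
    ⟨δ n, hδpos n, by rwa [add_sub_cancel_right]⟩
  have hg : ∀ n, ∃ g ∈ 𝒢, g (x + δ n • y₀) ∈ cone F := by
    intro n
    obtain ⟨g, hg, h⟩ := hcov0 _ (hin n)
    exact ⟨g, hg, hFF0 _ h⟩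
  choose g hg𝒢 hgS using hg
  have hins : ∀ a ∈ insert y₀ A', a ∈ L ∧ a ∈ Nf := by
    intro a ha
    rcases Finset.mem_insert.1 ha with rfl | h
    · exact ⟨D.y_L, D.y_N⟩
    · exact hA' a h
  have hfin := siegel D 𝒢 hL hN (insert y₀ A') F hins hF
  have hrange : (Set.range g).Finite := hfin.subset (by
    rintro _ ⟨n, rfl⟩
    refine ⟨hg𝒢 n, x + δ n • y₀, cone_add (cone_mono (Finset.subset_insert _ _) hx)
      (cone_smul (mem_cone_self (Finset.mem_insert_self _ _)) (hδpos n).le), hin n, hgS n⟩)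
  obtain ⟨h, hh⟩ : ∃ h : W ≃ₗ[ℝ] W, {n | g n = h}.Infinite := by
    by_contra hcon
    push Not at hcon
    have h1 : (Set.univ : Set ℕ) ⊆ ⋃ h ∈ Set.range g, {n | g n = h} := by
      intro n _
      simp only [Set.mem_iUnion]
      exact ⟨g n, ⟨n, rfl⟩, rfl⟩
    have h2 : (⋃ h ∈ Set.range g, {n | g n = h}).Finite :=
      hrange.biUnion fun h _ => by simpa using hcon h
    exact Set.infinite_univ (h2.subset h1)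
  have hh𝒢 : h ∈ 𝒢 := by
    obtain ⟨n, hn⟩ := hh.nonempty
    have hn : g n = h := hn
    rw [← hn]; exact hg𝒢 n
  refine ⟨h, hh𝒢, ?_⟩
  let k : ℕ → ℕ := Nat.nth (fun n => g n = h)
  have hk : StrictMono k := Nat.nth_strictMono hh
  have hkm : ∀ n, g (k n) = h := fun n => Nat.nth_mem_of_infinite hh n
  refine cone_mono (Finset.filter_subset _ _) (cone_closed (S := F) ξ₀ hFpos (p := h x)
    (q := h y₀) (δ := δ ∘ k) (hδ.comp hk.tendsto_atTop) (fun n => ?_))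
  have h1 := hgS (k n)
  rw [hkm n, map_add, map_smul] at h1
  exact h1

/-- The linear automorphisms which preserve `L` and `Nf`. -/
def autGrp (L : AddSubgroup W) (Nf : Set W) : Subgroup (W ≃ₗ[ℝ] W) where
  carrier := {g | ((∀ x ∈ L, g x ∈ L) ∧ ∀ x ∈ Nf, g x ∈ Nf) ∧
    ((∀ x ∈ L, g⁻¹ x ∈ L) ∧ ∀ x ∈ Nf, g⁻¹ x ∈ Nf)}
  one_mem' := ⟨⟨fun _ hx => hx, fun _ hx => hx⟩, ⟨fun _ hx => hx, fun _ hx => hx⟩⟩
  mul_mem' := by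
    rintro g h ⟨⟨g1, g2⟩, g3, g4⟩ ⟨⟨h1, h2⟩, h3, h4⟩
    refine ⟨⟨fun x hx => g1 _ (h1 x hx), fun x hx => g2 _ (h2 x hx)⟩, ?_, ?_⟩
    · intro x hx
      rw [mul_inv_rev]
      exact h3 _ (g3 x hx)
    · intro x hx
      rw [mul_inv_rev]
      exact h4 _ (g4 x hx)
  inv_mem' := by
    rintro g ⟨h1, h2⟩
    refine ⟨h2, ?_⟩
    rw [inv_inv]
    exact h1

theorem le_autGrp {𝒜 : Subgroup (W ≃ₗ[ℝ] W)} (hAL : ∀ g ∈ 𝒜, ∀ x ∈ L, g x ∈ L)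
    (hAN : ∀ g ∈ 𝒜, ∀ x ∈ Nf, g x ∈ Nf) : 𝒜 ≤ autGrp L Nf := fun g hg =>
  ⟨⟨hAL g hg, hAN g hg⟩, ⟨hAL _ (𝒜.inv_mem hg), hAN _ (𝒜.inv_mem hg)⟩⟩

/-- **Descent to the fixed space of a finite group.** -/
theorem fixed_cover (D : CData L Nf ξ₀ y₀ Y) (𝒜 G Z : Subgroup (W ≃ₗ[ℝ] W)) [Finite G]
    (hAL : ∀ g ∈ 𝒜, ∀ x ∈ L, g x ∈ L) (hAN : ∀ g ∈ 𝒜, ∀ x ∈ Nf, g x ∈ Nf)
    (hGL : ∀ g ∈ G, ∀ x ∈ L, g x ∈ L) (hGN : ∀ g ∈ G, ∀ x ∈ Nf, g x ∈ Nf)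
    (hZ : (Z.subgroupOf (𝒜 ⊓ Subgroup.centralizer (G : Set (W ≃ₗ[ℝ] W)))).FiniteIndex)
    (F : Finset W) (hF : ∀ a ∈ F, a ∈ L ∧ a ∈ Nf)
    (hcov : ∀ x, Inn Nf y₀ x → ∃ g ∈ 𝒜, g x ∈ cone F) :
    ∃ R : Finset (W ≃ₗ[ℝ] W), (∀ r ∈ R, r ∈ 𝒜) ∧
      ∀ x, Inn Nf y₀ x → (∀ g ∈ G, g x = x) → ∃ z ∈ Z, ∃ r ∈ R, ∃ y ∈ cone F, z x = r y := by
  classical
  set 𝒪 := autGrp L Nf with h𝒪
  have hA𝒪 : 𝒜 ≤ 𝒪 := le_autGrp hAL hAN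
  have hG𝒪 : G ≤ 𝒪 := le_autGrp hGL hGN
  have hSfin := siegel D 𝒪 (fun g hg => hg.1.1) (fun g hg => hg.1.2) F F hF hF
  set 𝒮 : Set (W ≃ₗ[ℝ] W) := {g | g ∈ 𝒪 ∧ ∃ x ∈ cone F, Inn Nf y₀ x ∧ g x ∈ cone F} with h𝒮
  -- the conjugations which occur
  let c : (W ≃ₗ[ℝ] W) → (G → (W ≃ₗ[ℝ] W)) := fun γ g => γ * g.1 * γ⁻¹
  let P : Set (W ≃ₗ[ℝ] W) := {γ | γ ∈ 𝒜 ∧ ∀ g, c γ g ∈ 𝒮}
  have hcfin : (c '' P).Finite := by
    refine (Set.Finite.pi' (fun _ : G => hSfin)).subset ?_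
    rintro _ ⟨γ, hγ, rfl⟩ g
    exact hγ.2 g
  have hrep : ∀ f : G → (W ≃ₗ[ℝ] W), ∃ γ, f ∈ c '' P → γ ∈ P ∧ c γ = f := by
    intro f
    by_cases hf : f ∈ c '' P
    · obtain ⟨γ, hγ, h⟩ := hf
      exact ⟨γ, fun _ => ⟨hγ, h⟩⟩
    · exact ⟨1, fun h => absurd h hf⟩
  choose rep hrep using hrep
  -- the cosets of `Z`
  set C : Subgroup (W ≃ₗ[ℝ] W) := 𝒜 ⊓ Subgroup.centralizer (G : Set (W ≃ₗ[ℝ] W)) with hC
  have : Finite (C ⧸ Z.subgroupOf C) := Subgroup.finite_quotient_of_finiteIndex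
  have : Fintype (C ⧸ Z.subgroupOf C) := Fintype.ofFinite _
  let R0 : Finset (W ≃ₗ[ℝ] W) :=
    (Finset.univ : Finset (C ⧸ Z.subgroupOf C)).image fun u => (Quotient.out u : C).1
  let R1 : Finset (W ≃ₗ[ℝ] W) := hcfin.toFinset.image rep
  refine ⟨(R0 ×ˢ R1).image fun r => r.1⁻¹ * r.2⁻¹, ?_, ?_⟩
  · intro r hr
    obtain ⟨⟨r0, r1⟩, hr', rfl⟩ := Finset.mem_image.1 hr
    obtain ⟨h0, h1⟩ := Finset.mem_product.1 hr'
    obtain ⟨u, -, hu⟩ := Finset.mem_image.1 h0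
    obtain ⟨f, hf, hf2⟩ := Finset.mem_image.1 h1
    have h2 : r0 ∈ 𝒜 := by
      have := (Quotient.out u : C).2.1
      rw [hu] at this
      exact this
    have h3 : r1 ∈ 𝒜 := by
      have := (hrep f (hcfin.mem_toFinset.1 hf)).1.1
      rw [hf2] at this
      exact this
    exact 𝒜.mul_mem (𝒜.inv_mem h2) (𝒜.inv_mem h3)
  · intro x hx hfix
    obtain ⟨γ, hγ, hγx⟩ := hcov x hx
    have hγP : γ ∈ P := by
      refine ⟨hγ, fun g => ⟨?_, γ x, hγx, hx.map D (hAN γ hγ), ?_⟩⟩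
      · exact 𝒪.mul_mem (𝒪.mul_mem (hA𝒪 hγ) (hG𝒪 g.2)) (𝒪.inv_mem (hA𝒪 hγ))
      · have h1 : (c γ g) (γ x) = γ (g.1 (γ⁻¹ (γ x))) := rfl
        have h2 : γ⁻¹ (γ x) = (γ⁻¹ * γ) x := rfl
        rw [h1, h2, inv_mul_cancel]
        have h3 : (1 : W ≃ₗ[ℝ] W) x = x := rfl
        rw [h3, hfix g.1 g.2]
        exact hγx
    have hcγ : c γ ∈ c '' P := ⟨γ, hγP, rfl⟩
    obtain ⟨hr1, hr2⟩ := hrep _ hcγ
    set r1 := rep (c γ) with hr1def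
    have hcom : r1⁻¹ * γ ∈ C := by
      refine ⟨𝒜.mul_mem (𝒜.inv_mem hr1.1) hγ, ?_⟩
      refine Subgroup.mem_centralizer_iff.2 ?_
      intro g hg
      have h1 : r1 * g * r1⁻¹ = γ * g * γ⁻¹ := congrFun hr2 ⟨g, hg⟩
      have h2 : g * r1⁻¹ = r1⁻¹ * (γ * g * γ⁻¹) := by rw [← h1]; group
      calc g * (r1⁻¹ * γ) = (g * r1⁻¹) * γ := by group
        _ = r1⁻¹ * (γ * g * γ⁻¹) * γ := by rw [h2]
        _ = r1⁻¹ * γ * g := by group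
    let u : C ⧸ Z.subgroupOf C := QuotientGroup.mk ⟨r1⁻¹ * γ, hcom⟩
    have hu : (Quotient.out u : C)⁻¹ * ⟨r1⁻¹ * γ, hcom⟩ ∈ Z.subgroupOf C := by
      rw [← QuotientGroup.eq]
      exact Quotient.out_eq u
    set r0 : W ≃ₗ[ℝ] W := (Quotient.out u : C).1 with hr0
    have hz : r0⁻¹ * (r1⁻¹ * γ) ∈ Z := by
      have := Subgroup.mem_subgroupOf.1 hu
      exact this
    refine ⟨_, hz, r0⁻¹ * r1⁻¹, ?_, γ x, hγx, rfl⟩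
    refine Finset.mem_image.2 ⟨(r0, r1), Finset.mem_product.2 ⟨?_, ?_⟩, rfl⟩
    · exact Finset.mem_image.2 ⟨u, Finset.mem_univ _, rfl⟩
    · exact Finset.mem_image.2 ⟨c γ, hcfin.mem_toFinset.2 hcγ, rfl⟩

end Pool.Agent.R299.CDE
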