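import Pool.Agent.R299.CDE.Defs
import Pool.Agent.R299.CDE.Siegel

/-!
# Projective cones: compactness, products
-/

set_option autoImplicit false

namespace Pool.Agent.R299.CDE

open Pool.Agent.Y167 Module Finset Filter Topology

section one

variable {W : Type*} [NormedAddCommGroup W] [NormedSpace ℝ W] {N : Cones W}

theorem interior_move {A : Set W} {h : W} (hh : h ∈ interior A) (x : W) :
    ∃ t : ℝ, 0 < t ∧ h - t • x ∈ A := by
  have h1 : Tendsto (fun t : ℝ => h - t • x) (𝓝 0) (𝓝 (h - (0 : ℝ) • x)) :=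
    (continuous_const.sub (continuous_id.smul continuous_const)).tendsto 0
  rw [zero_smul, sub_zero] at h1
  have h2 : ∀ᶠ t in 𝓝 (0 : ℝ), h - t • x ∈ A := h1.eventually (mem_interior_iff_mem_nhds.1 hh)
  have h3 : ∀ᶠ t in 𝓝[>] (0 : ℝ), h - t • x ∈ A := h2.filter_mono nhdsWithin_le_nhds
  obtain ⟨t, ht, ht2⟩ := (h3.and self_mem_nhdsWithin).exists
  exact ⟨t, ht2, ht⟩

theorem Inn.interior (hN : N.IsProjective) {h : W} (hh : h ∈ interior N.nef) {x : W}
    (hx : Inn N.nef h x) : x ∈ interior N.nef := by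
  obtain ⟨t, ht, h1⟩ := hx
  rw [mem_interior_iff_mem_nhds] at hh ⊢
  have h2 : Tendsto (fun y => t⁻¹ • (y - (x - t • h))) (𝓝 x) (𝓝 (t⁻¹ • (x - (x - t • h)))) :=
    ((continuous_id.sub continuous_const).const_smul _).tendsto x
  have h3 : t⁻¹ • (x - (x - t • h)) = h := by
    rw [sub_sub_cancel, smul_smul, inv_mul_cancel₀ ht.ne', one_smul]
  rw [h3] at h2
  filter_upwards [h2.eventually hh] with y hy
  have h4 := hN.add_nef _ h1 _ (hN.smul_nef t ht.le _ hy)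
  rw [smul_smul, mul_inv_cancel₀ ht.ne', one_smul, add_sub_cancel] at h4
  exact h4

theorem finite_lattice {n : ℕ} (b : Basis (Fin n) ℝ W) (B : ℝ) :
    {x : W | (∀ i, ∃ m : ℤ, b.repr x i = m) ∧ ∀ i, |b.repr x i| ≤ B}.Finite := by
  classical
  have h1 : {r : ℝ | (∃ m : ℤ, r = m) ∧ |r| ≤ B}.Finite := by
    refine ((Set.finite_Icc (-⌈B⌉) ⌈B⌉).image (fun m : ℤ => (m : ℝ))).subset ?_
    rintro r ⟨⟨m, rfl⟩, hm⟩
    refine ⟨m, ?_, rfl⟩
    have h2 := abs_le.1 (hm.trans (Int.le_ceil B))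
    constructor
    · have : (-(⌈B⌉ : ℝ)) ≤ m := h2.1
      exact_mod_cast this
    · exact_mod_cast h2.2
  refine Set.Finite.of_finite_image (f := fun x => (fun i => b.repr x i : Fin n → ℝ)) ?_ ?_
  · refine (Set.Finite.pi' (fun _ : Fin n => h1)).subset ?_
    rintro _ ⟨x, ⟨hx1, hx2⟩, rfl⟩ i
    exact ⟨hx1 i, hx2 i⟩
  · intro x _ y _ hxy
    refine b.ext_elem fun i => congrFun hxy i

theorem exists_cdata (hN : N.IsProjective) : ∃ (ξ₀ : W →ₗ[ℝ] ℝ) (y₀ : W) (Y : Finset W),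
    CData N.int N.nef ξ₀ y₀ Y ∧ y₀ ∈ interior N.nef := by
  classical
  obtain ⟨n, b, hb⟩ := hN.lattice
  obtain ⟨h, hL, hI⟩ := hN.ample
  obtain ⟨d, hd1, hd2⟩ := hN.degree
  have : FiniteDimensional ℝ W := Module.Finite.of_basis b
  have : ProperSpace W := FiniteDimensional.proper_real W
  have hdc : Continuous d := LinearMap.continuous_of_finiteDimensional d
  -- the form `d` is comparable with the norm
  obtain ⟨c, hc, hcd⟩ : ∃ c : ℝ, 0 < c ∧ ∀ x ∈ N.nef, c * ‖x‖ ≤ d x := by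
    have hK : IsCompact (Metric.sphere (0 : W) 1 ∩ N.nef) :=
      (isCompact_sphere 0 1).inter_right hN.closed
    have hunit : ∀ x ∈ N.nef, x ≠ 0 → ‖x‖⁻¹ • x ∈ Metric.sphere (0 : W) 1 ∩ N.nef := by
      intro x hx h0
      have h1 : ‖x‖ ≠ 0 := norm_ne_zero_iff.2 h0
      refine ⟨?_, hN.smul_nef _ (inv_nonneg.2 (norm_nonneg _)) _ hx⟩
      rw [mem_sphere_zero_iff_norm, norm_smul, norm_inv, norm_norm, inv_mul_cancel₀ h1]
    by_cases hne : (Metric.sphere (0 : W) 1 ∩ N.nef).Nonempty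
    · obtain ⟨z, hz, hmin⟩ := hK.exists_isMinOn hne hdc.continuousOn
      have hz0 : z ≠ 0 := by
        intro h0
        have := hz.1
        rw [h0, mem_sphere_zero_iff_norm, norm_zero] at this
        exact zero_ne_one this
      refine ⟨d z, hd2 z hz.2 hz0, fun x hx => ?_⟩
      by_cases h0 : x = 0
      · rw [h0, norm_zero, mul_zero, map_zero]
      · have h1 := hmin (hunit x hx h0)
        simp only [Set.mem_ofPred_eq, map_smul, smul_eq_mul] at h1
        have h2 : 0 < ‖x‖ := norm_pos_iff.2 h0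
        calc d z * ‖x‖ ≤ (‖x‖⁻¹ * d x) * ‖x‖ := mul_le_mul_of_nonneg_right h1 h2.le
          _ = d x := by field_simp
    · refine ⟨1, one_pos, fun x hx => ?_⟩
      by_cases h0 : x = 0
      · rw [h0, norm_zero, mul_zero, map_zero]
      · exact absurd ⟨_, hunit x hx h0⟩ hne
  have hyint : ∀ x : W, ∃ C : ℝ, 0 < C ∧ C • h - x ∈ N.nef := by
    intro x
    obtain ⟨t, ht, h1⟩ := interior_move hI x
    refine ⟨t⁻¹, inv_pos.2 ht, ?_⟩
    have h2 := hN.smul_nef t⁻¹ (inv_pos.2 ht).le _ h1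
    rwa [smul_sub, smul_smul, inv_mul_cancel₀ ht.ne', one_smul] at h2
  have hhN : h ∈ N.nef := interior_subset hI
  -- a spanning set
  have hM : ∀ i, ∃ m : ℕ, (m : ℝ) • h + b i ∈ N.nef := by
    intro i
    obtain ⟨C, hC, h1⟩ := hyint (-b i)
    refine ⟨⌈C⌉₊, ?_⟩
    have h2 := hN.add_nef _ h1 _ (hN.smul_nef (⌈C⌉₊ - C) (sub_nonneg.2 (Nat.le_ceil C)) _ hhN)
    have h3 : C • h - -b i + ((⌈C⌉₊ : ℝ) - C) • h = (⌈C⌉₊ : ℝ) • h + b i := by
      rw [sub_smul, sub_neg_eq_add]; abel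
    rwa [h3] at h2
  choose m hm using hM
  have hbL : ∀ i, b i ∈ N.int := by
    intro i
    rw [hb]
    intro j
    rw [b.repr_self, Finsupp.single_apply]
    split_ifs
    · exact ⟨1, by simp⟩
    · exact ⟨0, by simp⟩
  have hmL : ∀ i, (m i : ℝ) • h + b i ∈ N.int := by
    intro i
    refine N.int.add_mem ?_ (hbL i)
    rw [Nat.cast_smul_eq_nsmul]
    exact N.int.nsmul_mem hL _
  refine ⟨d, h, insert h (Finset.univ.image fun i => (m i : ℝ) • h + b i), ?_, hI⟩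
  refine
    { add := hN.add_nef
      smul := hN.smul_nef
      xi_int := hd1
      xi_pos := hd2
      fin := ?_
      y_L := hL
      y_N := hhN
      y_int := hyint
      dom := ?_
      sep := ?_
      Y_mem := ?_
      Y_span := ?_ }
  · intro C
    let K : ℝ := ∑ i, ‖LinearMap.toContinuousLinearMap (b.coord i)‖
    refine (finite_lattice b (K * (C / c))).subset ?_
    rintro x ⟨h1, h2, h3⟩
    refine ⟨(hb x).1 h1, fun i => ?_⟩
    have h4 : ‖x‖ ≤ C / c := by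
      rw [le_div_iff₀ hc, mul_comm]
      exact (hcd x h2).trans h3
    have h5 : |b.repr x i| ≤ ‖LinearMap.toContinuousLinearMap (b.coord i)‖ * ‖x‖ := by
      have := (LinearMap.toContinuousLinearMap (b.coord i)).le_opNorm x
      simpa [Real.norm_eq_abs] using this
    have h6 : ‖LinearMap.toContinuousLinearMap (b.coord i)‖ ≤ K :=
      Finset.single_le_sum (f := fun i => ‖LinearMap.toContinuousLinearMap (b.coord i)‖)
        (fun _ _ => norm_nonneg _) (Finset.mem_univ i)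
    exact h5.trans (mul_le_mul h6 h4 (norm_nonneg _)
      (Finset.sum_nonneg fun _ _ => norm_nonneg _))
  · intro η
    refine ⟨‖LinearMap.toContinuousLinearMap η‖ / c, fun x hx => ?_⟩
    have h1 : |η x| ≤ ‖LinearMap.toContinuousLinearMap η‖ * ‖x‖ := by
      have := (LinearMap.toContinuousLinearMap η).le_opNorm x
      simpa [Real.norm_eq_abs] using this
    have h2 : ‖x‖ ≤ d x / c := by
      rw [le_div_iff₀ hc, mul_comm]
      exact hcd x hx
    calc |η x| ≤ ‖LinearMap.toContinuousLinearMap η‖ * ‖x‖ := h1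
      _ ≤ ‖LinearMap.toContinuousLinearMap η‖ * (d x / c) :=
        mul_le_mul_of_nonneg_left h2 (norm_nonneg _)
      _ = _ := by ring
  · intro x hx
    by_contra hcon
    push Not at hcon
    refine hx (b.ext_elem fun i => ?_)
    rw [map_zero, Finsupp.zero_apply]
    exact hcon (b.coord i) fun y hy => (hb y).1 hy i
  · intro y hy
    rcases Finset.mem_insert.1 hy with rfl | hy
    · exact ⟨hL, hhN⟩
    · obtain ⟨i, -, rfl⟩ := Finset.mem_image.1 hy
      exact ⟨hmL i, hm i⟩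
  · intro φ hφ
    refine b.ext fun i => ?_
    have h1 := hφ h (Finset.mem_insert_self _ _)
    have h2 := hφ _ (Finset.mem_insert_of_mem (Finset.mem_image_of_mem _ (Finset.mem_univ i)))
    rw [map_add, map_smul, h1, smul_zero, zero_add] at h2
    rw [h2]; rfl

theorem cone_le_nefEff (hN : N.IsProjective) {S : Finset W} (hS : ∀ a ∈ S, a ∈ N.nefEff) :
    cone S ⊆ N.nefEff := by
  intro x hx
  have h0n : (0 : W) ∈ N.nef := by
    obtain ⟨h, -, hI⟩ := hN.ample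
    have := hN.smul_nef 0 le_rfl _ (interior_subset hI)
    rwa [zero_smul] at this
  have h0e : (0 : W) ∈ N.eff := by
    obtain ⟨h, -, hI⟩ := hN.ample
    have := hN.smul_eff 0 le_rfl _ (hN.interior_eff hI)
    rwa [zero_smul] at this
  exact cone_ind (p := fun x => x ∈ N.nefEff) ⟨h0n, h0e⟩
    (fun x y hx hy => ⟨hN.add_nef _ hx.1 _ hy.1, hN.add_eff _ hx.2 _ hy.2⟩)
    (fun t x ht hx => ⟨hN.smul_nef t ht _ hx.1, hN.smul_eff t ht _ hx.2⟩) hS hx

theorem zero_mem_nefEff (hN : N.IsProjective) : (0 : W) ∈ N.nefEff :=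
  cone_le_nefEff hN (S := ∅) (by simp) (zero_mem_cone _)

/-- From a covering of the interior to the cone conjecture. -/
theorem coneConjecture_of_cover (hN : N.IsProjective) {𝒢 : LinGrp W} (h𝒢 : N.Preserved 𝒢)
    {h : W} {ξ₀ : W →ₗ[ℝ] ℝ} {Y : Finset W} (D : CData N.int N.nef ξ₀ h Y)
    (F : Finset W) (hF : ∀ a ∈ F, a ∈ N.int ∧ a ∈ N.nefEff)
    (hcov : ∀ x, Inn N.nef h x → ∃ g ∈ 𝒢, g x ∈ cone F) (hplus : N.nefEff ⊆ N.nefPlus) :
    N.ConeConjecture 𝒢 ∧ N.nefEff = N.nefPlus := by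
  classical
  have hGL : ∀ g ∈ 𝒢, ∀ x ∈ N.int, g x ∈ N.int := fun g hg => (h𝒢 g hg).1
  have hGN : ∀ g ∈ 𝒢, ∀ x ∈ N.nef, g x ∈ N.nef := fun g hg => (h𝒢 g hg).2.1
  have hA : ∀ g ∈ 𝒢, ∀ x ∈ N.nefEff, g x ∈ N.nefEff := fun g hg x hx =>
    ⟨(h𝒢 g hg).2.1 x hx.1, (h𝒢 g hg).2.2 x hx.2⟩
  have hFN : ∀ a ∈ F, a ∈ N.int ∧ a ∈ N.nef := fun a ha => ⟨(hF a ha).1, (hF a ha).2.1⟩
  have hinv : ∀ g : W ≃ₗ[ℝ] W, ∀ x, g⁻¹ (g x) = x := by
    intro g x
    have : g⁻¹ (g x) = (g⁻¹ * g) x := rfl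
    rw [this, inv_mul_cancel]; rfl
  have hinv2 : ∀ g : W ≃ₗ[ℝ] W, ∀ x, g (g⁻¹ x) = x := by
    intro g x
    have : g (g⁻¹ x) = (g * g⁻¹) x := rfl
    rw [this, mul_inv_cancel]; rfl
  have hpe : N.nefPlus ⊆ N.nefEff := by
    intro x hx
    obtain ⟨g, hg, hgx⟩ := cover_closure D 𝒢 hGL hGN F hFN hcov x hx
    have h1 := cone_le_nefEff hN (fun a ha => (hF a ha).2) hgx
    have h2 := hA _ (𝒢.inv_mem hg) _ h1
    rwa [hinv] at h2
  have heq : N.nefEff = N.nefPlus := Set.Subset.antisymm hplus hpe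
  refine ⟨?_, heq⟩
  obtain ⟨S, hS, hSc, hSd⟩ := D.domain 𝒢 hGL hGN F hFN hcov
  have hSE : cone S ⊆ N.nefEff := by
    intro x hx
    rw [heq]
    exact ⟨S, hS, hx⟩
  refine ⟨S, fun a ha => (hS a ha).1, hSE, fun x => ⟨fun hx => ?_, ?_⟩, fun g hg hg1 => ?_⟩
  · rw [heq] at hx
    obtain ⟨g, hg, hgx⟩ := (hSc x).1 hx
    exact ⟨g⁻¹, 𝒢.inv_mem hg, g x, hgx, (hinv g x).symm⟩
  · rintro ⟨g, hg, y, hy, rfl⟩
    exact hA g hg _ (hSE hy)
  · obtain ⟨φ, hφ, h1, h2⟩ := hSd g hg hg1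
    rw [Set.eq_empty_iff_forall_notMem]
    rintro z ⟨hz, x, hx, rfl⟩
    apply hφ
    have h3 : φ (g x) = 0 := le_antisymm (h2 x hx) (h1 _ (interior_subset hz))
    ext v
    obtain ⟨s, hs, h4⟩ := interior_move hz v
    obtain ⟨t, ht, h5⟩ := interior_move hz (-v)
    have h6 := h1 _ h4
    have h7 := h1 _ h5
    rw [map_sub, map_smul, h3, smul_eq_mul] at h6 h7
    rw [map_neg] at h7
    rw [LinearMap.zero_apply]
    refine le_antisymm ?_ ?_
    · nlinarith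
    · nlinarith

end one

end Pool.Agent.R299.CDE
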