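import Pool.Agent.R299.CDE.ChamberDefs
import Pool.Agent.R299.CDE.Proj

/-!
# The cone conjecture for the chambers
-/

set_option autoImplicit false

namespace Pool.Agent.R299.CDE

open Pool.Agent.Y167 Module Finset Filter Topology

section limit

variable {W : Type*} [AddCommGroup W] [Module ℝ W] {L : AddSubgroup W} {Nf : Set W}
  {ξ₀ : W →ₗ[ℝ] ℝ} {y₀ : W} {Y : Finset W}

/-- Passing to the limit in coverings by translates of finitely many rational polyhedral cones. -/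
theorem limit_cover (D : CData L Nf ξ₀ y₀ Y) (𝒢 : Subgroup (W ≃ₗ[ℝ] W))
    (hL : ∀ g ∈ 𝒢, ∀ x ∈ L, g x ∈ L) (hN : ∀ g ∈ 𝒢, ∀ x ∈ Nf, g x ∈ Nf)
    (𝒯 : Finset (Finset W)) (h𝒯 : ∀ T ∈ 𝒯, ∀ a ∈ T, a ∈ L ∧ a ∈ Nf)
    (P : (W ≃ₗ[ℝ] W) → Finset W → Prop) {x h : W} (hx : x ∈ Cp L Nf) (hhL : h ∈ L)
    (hh : Inn Nf y₀ h)
    (hcov : ∀ t : ℝ, 0 < t → ∃ g ∈ 𝒢, ∃ T ∈ 𝒯, P g T ∧ g (x + t • h) ∈ cone T) :
    ∃ g ∈ 𝒢, ∃ T ∈ 𝒯, P g T ∧ g x ∈ cone T := by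
  classical
  obtain ⟨A', hA', hx⟩ := hx
  have hhN : h ∈ Nf := hh.mem D
  let δ : ℕ → ℝ := fun n => 1 / ((n : ℝ) + 1)
  have hδpos : ∀ n, 0 < δ n := fun n => by simp only [δ]; positivity
  have hδ : Tendsto δ atTop (𝓝 0) := tendsto_one_div_add_atTop_nhds_zero_nat
  have hxN : x ∈ Nf := D.cone_Nf hA' hx
  have hin : ∀ n, Inn Nf y₀ (x + δ n • h) := by
    intro n
    obtain ⟨t, ht, h1⟩ := hh
    refine ⟨δ n * t, mul_pos (hδpos n) ht, ?_⟩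
    have h2 := D.add _ hxN _ (D.smul (δ n) (hδpos n).le _ h1)
    have h3 : x + δ n • (h - t • y₀) = x + δ n • h - (δ n * t) • y₀ := by
      rw [smul_sub, smul_smul]; abel
    rwa [h3] at h2
  choose g hg𝒢 T hT hP hgT using fun n => hcov (δ n) (hδpos n)
  have hins : ∀ a ∈ insert h A', a ∈ L ∧ a ∈ Nf := by
    intro a ha
    rcases Finset.mem_insert.1 ha with rfl | h
    · exact ⟨hhL, hhN⟩
    · exact hA' a h
  let F : Finset W := 𝒯.biUnion id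
  have hF : ∀ a ∈ F, a ∈ L ∧ a ∈ Nf := by
    intro a ha
    obtain ⟨T, hT, haT⟩ := Finset.mem_biUnion.1 ha
    exact h𝒯 T hT a haT
  have hfin := siegel D 𝒢 hL hN (insert h A') F hins hF
  have hrange : (Set.range g).Finite := hfin.subset (by
    rintro _ ⟨n, rfl⟩
    refine ⟨hg𝒢 n, x + δ n • h, cone_add (cone_mono (Finset.subset_insert _ _) hx)
      (cone_smul (mem_cone_self (Finset.mem_insert_self _ _)) (hδpos n).le), hin n,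
      cone_mono (Finset.subset_biUnion_of_mem id (hT n)) (hgT n)⟩)
  have hrange2 : (Set.range fun n => (g n, T n)).Finite :=
    (hrange.prod 𝒯.finite_toSet).subset (by
      rintro _ ⟨n, rfl⟩
      exact ⟨⟨n, rfl⟩, hT n⟩)
  obtain ⟨⟨g', T'⟩, hh'⟩ : ∃ p : (W ≃ₗ[ℝ] W) × Finset W, {n | (g n, T n) = p}.Infinite := by
    by_contra hcon
    push Not at hcon
    have h1 : (Set.univ : Set ℕ) ⊆ ⋃ p ∈ Set.range fun n => (g n, T n),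
        {n | (g n, T n) = p} := by
      intro n _
      simp only [Set.mem_iUnion]
      exact ⟨(g n, T n), ⟨n, rfl⟩, rfl⟩
    have h2 : (⋃ p ∈ Set.range fun n => (g n, T n), {n | (g n, T n) = p}).Finite :=
      hrange2.biUnion fun p _ => by simpa using hcon p
    exact Set.infinite_univ (h2.subset h1)
  obtain ⟨n0, hn0⟩ := hh'.nonempty
  have hn0' : (g n0, T n0) = (g', T') := hn0
  have hg' : g n0 = g' := congrArg Prod.fst hn0'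
  have hT' : T n0 = T' := congrArg Prod.snd hn0'
  have hT𝒯 : T' ∈ 𝒯 := by rw [← hT']; exact hT n0
  refine ⟨g', by rw [← hg']; exact hg𝒢 n0, T', hT𝒯, by rw [← hg', ← hT']; exact hP n0, ?_⟩
  let k : ℕ → ℕ := Nat.nth (fun n => (g n, T n) = (g', T'))
  have hk : StrictMono k := Nat.nth_strictMono hh'
  have hkm : ∀ n, (g (k n), T (k n)) = (g', T') := fun n => Nat.nth_mem_of_infinite hh' n
  let F' := T'.filter (· ≠ 0)
  have hFpos : ∀ a ∈ F', 0 < ξ₀ a := fun a ha =>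
    D.xi_pos a (h𝒯 T' hT𝒯 a (Finset.mem_filter.1 ha).1).2 (Finset.mem_filter.1 ha).2
  refine cone_mono (Finset.filter_subset _ _) (cone_closed (S := F') ξ₀ hFpos (p := g' x)
    (q := g' h) (δ := δ ∘ k) (hδ.comp hk.tendsto_atTop) (fun n => ?_))
  have h1 := hgT (k n)
  have e1 : g (k n) = g' := congrArg Prod.fst (hkm n)
  have e2 : T (k n) = T' := congrArg Prod.snd (hkm n)
  rw [e1, e2, map_add, map_smul] at h1
  refine cone_le (fun a ha => ?_) h1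
  by_cases h : a = 0
  · rw [h]; exact zero_mem_cone _
  · exact mem_cone_self (Finset.mem_filter.2 ⟨ha, h⟩)

end limit

variable {V : Type*} [NormedAddCommGroup V] [NormedSpace ℝ V] {M : Cones V} {ℬ : LinGrp V}
  {𝒦 : Set (Set V)}

theorem image_inv {g : V ≃ₗ[ℝ] V} (κ : Set V) : (g⁻¹ : V ≃ₗ[ℝ] V) '' (g '' κ) = κ := by
  rw [Set.image_image]
  have h1 : ∀ x, (g⁻¹ : V ≃ₗ[ℝ] V) (g x) = x := fun x => g.symm_apply_apply x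
  simp only [h1, Set.image_id']

theorem image_mul (g h : V ≃ₗ[ℝ] V) (κ : Set V) : (g * h : V ≃ₗ[ℝ] V) '' κ = g '' (h '' κ) := by
  rw [Set.image_image]; rfl

theorem interior_image [FiniteDimensional ℝ V] (g : V ≃ₗ[ℝ] V) {κ : Set V} {x : V}
    (hx : x ∈ interior κ) : g x ∈ interior (g '' κ) := by
  have h1 : (g.toContinuousLinearEquiv.toHomeomorph : V → V) '' interior κ =
      interior ((g.toContinuousLinearEquiv.toHomeomorph : V → V) '' κ) :=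
    g.toContinuousLinearEquiv.toHomeomorph.image_interior κ
  have h2 : g x ∈ (g.toContinuousLinearEquiv.toHomeomorph : V → V) '' interior κ := ⟨x, hx, rfl⟩
  rw [h1] at h2
  exact h2

theorem chamber_main (hM : M.IsProjective) (hℬ : M.Preserved ℬ) (hconj : M.ConeConjecture ℬ)
    (hplus : M.nefEff = M.nefPlus) (h𝒦 : IsChamberSystem M ℬ 𝒦) :
    (∃ 𝒦₀ : Set (Set V), 𝒦₀ ⊆ 𝒦 ∧ 𝒦₀.Finite ∧ ∀ κ ∈ 𝒦, ∃ g ∈ ℬ, g '' κ ∈ 𝒦₀) ∧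
      ∀ κ ∈ 𝒦, (M.chamber κ).ConeConjecture (stab ℬ κ) ∧
        (M.chamber κ).nefEff = (M.chamber κ).nefPlus := by
  classical
  obtain ⟨n, b, -⟩ := hM.lattice
  have : FiniteDimensional ℝ V := Module.Finite.of_basis b
  obtain ⟨S, hS, hSc, hSf, -⟩ := hconj
  obtain ⟨𝒯, h𝒯, hcov𝒯⟩ := h𝒦.geography S hS hSc
  choose! K hK𝒦 hKT using fun T hT => (h𝒯 T hT).2.2
  have h𝒯LN : ∀ T ∈ 𝒯, ∀ a ∈ T, a ∈ M.int ∧ a ∈ M.nef := fun T hT a ha =>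
    ⟨(h𝒯 T hT).1 a ha, ((h𝒯 T hT).2.1 (mem_cone_self ha)).1⟩
  have hGL : ∀ g ∈ ℬ, ∀ x ∈ M.int, g x ∈ M.int := fun g hg => (hℬ g hg).1
  have hGN : ∀ g ∈ ℬ, ∀ x ∈ M.nef, g x ∈ M.nef := fun g hg => (hℬ g hg).2.1
  -- the interior points of a chamber
  have key : ∀ κ ∈ 𝒦, ∀ x ∈ interior κ, ∃ g ∈ ℬ, ∃ T ∈ 𝒯, g '' κ = K T ∧ g x ∈ cone T := by
    intro κ hκ x hx
    have hxA : x ∈ M.nefEff :=
      ⟨h𝒦.le κ hκ (interior_subset hx), (h𝒦.projective κ hκ).interior_eff hx⟩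
    obtain ⟨g, hg, y, hy, rfl⟩ := (hSf x).1 hxA
    obtain ⟨T, hT, hyT⟩ := hcov𝒯 y hy
    have h1 : (g⁻¹ : V ≃ₗ[ℝ] V) (g y) = y := g.symm_apply_apply y
    refine ⟨g⁻¹, ℬ.inv_mem hg, T, hT, ?_, by rw [h1]; exact hyT⟩
    refine h𝒦.disjoint _ (h𝒦.permuted κ hκ _ (ℬ.inv_mem hg)) _ (hK𝒦 T hT) ⟨y, ?_, hKT T hT hyT⟩
    have h2 := interior_image g⁻¹ hx
    rwa [h1] at h2
  refine ⟨⟨{κ | ∃ T ∈ 𝒯, κ = K T}, ?_, ?_, ?_⟩, ?_⟩
  · rintro κ ⟨T, hT, rfl⟩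
    exact hK𝒦 T hT
  · refine (𝒯.finite_toSet.image K).subset ?_
    rintro κ ⟨T, hT, rfl⟩
    exact ⟨T, hT, rfl⟩
  · intro κ hκ
    obtain ⟨h, -, hI⟩ := (h𝒦.projective κ hκ).ample
    obtain ⟨g, hg, T, hT, h1, -⟩ := key κ hκ h hI
    exact ⟨g, hg, T, hT, h1⟩
  intro κ hκ
  have hκP := h𝒦.projective κ hκ
  obtain ⟨ξ, y₀, Y, D, hy₀⟩ := exists_cdata hκP
  obtain ⟨ξ', y₁, Y', D', hy₁⟩ := exists_cdata hM
  -- translates of the pieces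
  have hrep : ∀ T, ∃ g : V ≃ₗ[ℝ] V, T ∈ 𝒯 → (∃ g ∈ ℬ, g '' κ = K T) → g ∈ ℬ ∧ g '' κ = K T := by
    intro T
    by_cases h : ∃ g ∈ ℬ, g '' κ = K T
    · obtain ⟨g, hg, h2⟩ := h
      exact ⟨g, fun _ _ => ⟨hg, h2⟩⟩
    · exact ⟨1, fun _ h2 => absurd h2 h⟩
  choose r hr using hrep
  let 𝒯' := 𝒯.filter fun T => ∃ g ∈ ℬ, g '' κ = K T
  have hr' : ∀ T ∈ 𝒯', T ∈ 𝒯 ∧ r T ∈ ℬ ∧ (r T) '' κ = K T := by
    intro T hT
    obtain ⟨h1, h2⟩ := Finset.mem_filter.1 hT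
    obtain ⟨h3, h4⟩ := hr T h1 h2
    exact ⟨h1, h3, h4⟩
  have hback : ∀ g : V ≃ₗ[ℝ] V, g ∈ ℬ → ∀ T ∈ 𝒯, g '' κ = K T → ∀ a ∈ T,
      (g⁻¹ : V ≃ₗ[ℝ] V) a ∈ M.int ∧ (g⁻¹ : V ≃ₗ[ℝ] V) a ∈ (M.chamber κ).nefEff := by
    intro g hg T hT h a ha
    have h1 := (h𝒯 T hT).2.1 (mem_cone_self ha)
    refine ⟨hGL _ (ℬ.inv_mem hg) _ ((h𝒯 T hT).1 a ha), ?_, (hℬ _ (ℬ.inv_mem hg)).2.2 _ h1.2⟩
    have h2 : a ∈ g '' κ := by rw [h]; exact hKT T hT (mem_cone_self ha)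
    have h3 : (g⁻¹ : V ≃ₗ[ℝ] V) a ∈ (g⁻¹ : V ≃ₗ[ℝ] V) '' (g '' κ) := ⟨a, h2, rfl⟩
    rw [image_inv] at h3
    exact h3
  refine coneConjecture_of_cover hκP (𝒢 := stab ℬ κ) ?_ D
    (𝒯'.biUnion fun T => T.image fun a => ((r T)⁻¹ : V ≃ₗ[ℝ] V) a) ?_ ?_ ?_
  · rintro g ⟨hg, hg2⟩
    refine ⟨(hℬ g hg).1, fun x hx => ?_, (hℬ g hg).2.2⟩
    have : g x ∈ g '' κ := ⟨x, hx, rfl⟩
    rw [hg2] at this
    exact this
  · intro v hv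
    obtain ⟨T, hT, hv⟩ := Finset.mem_biUnion.1 hv
    obtain ⟨a, ha, rfl⟩ := Finset.mem_image.1 hv
    obtain ⟨h1, h2, h3⟩ := hr' T hT
    exact hback _ h2 T h1 h3 a ha
  · intro x hx
    have hxI : x ∈ interior κ := hx.interior hκP hy₀
    obtain ⟨g, hg, T, hT, h1, h2⟩ := key κ hκ x hxI
    have hT' : T ∈ 𝒯' := Finset.mem_filter.2 ⟨hT, g, hg, h1⟩
    obtain ⟨-, h3, h4⟩ := hr' T hT'
    refine ⟨(r T)⁻¹ * g, ⟨ℬ.mul_mem (ℬ.inv_mem h3) hg, ?_⟩, ?_⟩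
    · rw [image_mul, h1, ← h4, image_inv]
    · have h5 : (((r T)⁻¹ * g : V ≃ₗ[ℝ] V)) x = ((r T)⁻¹ : V ≃ₗ[ℝ] V) (g x) := rfl
      rw [h5]
      refine cone_mono (Finset.subset_biUnion_of_mem
        (fun T => T.image fun a => ((r T)⁻¹ : V ≃ₗ[ℝ] V) a) hT') ?_
      exact cone_image (((r T)⁻¹ : V ≃ₗ[ℝ] V) : V →ₗ[ℝ] V) h2
  · intro x hx
    have hxM : x ∈ Cp M.int M.nef := by
      have h1 : x ∈ M.nefEff := ⟨h𝒦.le κ hκ hx.1, hx.2⟩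
      rw [hplus] at h1
      exact h1
    obtain ⟨h, hhL, hhI⟩ := hκP.ample
    have hhM : h ∈ interior M.nef := interior_mono (h𝒦.le κ hκ) hhI
    have hhInn : Inn M.nef y₁ h := by
      obtain ⟨t, ht, h1⟩ := interior_move hhM y₁
      exact ⟨t, ht, h1⟩
    have hcov : ∀ t : ℝ, 0 < t → ∃ g ∈ ℬ, ∃ T ∈ 𝒯, g '' κ = K T ∧ g (x + t • h) ∈ cone T := by
      intro t ht
      refine key κ hκ _ ?_
      refine Inn.interior hκP hhI ⟨t, ht, ?_⟩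
      have : x + t • h - t • h = x := add_sub_cancel_right _ _
      rw [this]
      exact hx.1
    obtain ⟨g, hg, T, hT, h1, h2⟩ := limit_cover D' ℬ hGL hGN 𝒯 h𝒯LN
      (fun g T => g '' κ = K T) hxM hhL hhInn hcov
    refine ⟨T.image fun a => (g⁻¹ : V ≃ₗ[ℝ] V) a, ?_, ?_⟩
    · intro v hv
      obtain ⟨a, ha, rfl⟩ := Finset.mem_image.1 hv
      have h3 := hback g hg T hT h1 a ha
      exact ⟨h3.1, h3.2.1⟩
    · have h3 := cone_image ((g⁻¹ : V ≃ₗ[ℝ] V) : V →ₗ[ℝ] V) h2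
      have h4 : ((g⁻¹ : V ≃ₗ[ℝ] V) : V →ₗ[ℝ] V) (g x) = x := g.symm_apply_apply x
      rw [h4] at h3
      exact h3

end Pool.Agent.R299.CDE
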