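import Pool.Agent.R299.CDE.Defs

/-!
# Systems of chambers in the movable cone: definitions
-/

set_option autoImplicit false

namespace Pool.Agent.R299.CDE

open Pool.Agent.Y167

/-- The cones `M` with the closed cone `M.nef` replaced by `κ`. If `M.nef` is the closed movable cone
of `Y`, and `κ` the nef cone of a minimal model `Y'` of `Y` (which is isomorphic to `Y` in codimension
one), then these are the cones of `Y'`. -/
def Cones.chamber {V : Type*} [AddCommGroup V] (M : Cones V) (κ : Set V) : Cones V where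
  int := M.int
  nef := κ
  eff := M.eff

/-- `𝒦` is the set of the nef cones of the minimal models of a variety with the closed movable cone
`M.nef`, as subsets of it: they are nef cones of projective varieties; they are permuted by the group
`ℬ` of the birational automorphisms; the interior of one of them does not meet another one; and every
rational polyhedral cone in the effective movable cone is a finite union of rational polyhedral cones
each of which is contained in one of them (the decomposition into the cones of the models). -/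
structure IsChamberSystem {V : Type*} [NormedAddCommGroup V] [NormedSpace ℝ V] (M : Cones V)
    (ℬ : LinGrp V) (𝒦 : Set (Set V)) : Prop where
  projective : ∀ κ ∈ 𝒦, (M.chamber κ).IsProjective
  le : ∀ κ ∈ 𝒦, κ ⊆ M.nef
  permuted : ∀ κ ∈ 𝒦, ∀ g ∈ ℬ, g '' κ ∈ 𝒦
  disjoint : ∀ κ ∈ 𝒦, ∀ κ' ∈ 𝒦, (interior κ ∩ κ').Nonempty → κ = κ'
  geography : ∀ S : Finset V, (∀ a ∈ S, a ∈ M.int) → cone S ⊆ M.nefEff →
    ∃ 𝒯 : Finset (Finset V), (∀ T ∈ 𝒯, (∀ a ∈ T, a ∈ M.int) ∧ cone T ⊆ M.nefEff ∧
      ∃ κ ∈ 𝒦, cone T ⊆ κ) ∧ ∀ x ∈ cone S, ∃ T ∈ 𝒯, x ∈ cone T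

/-- The elements of `ℬ` which map `κ` onto itself (the automorphisms of the minimal model `Y'` among the
birational automorphisms of `Y`). -/
def stab {V : Type*} [AddCommGroup V] [Module ℝ V] (ℬ : LinGrp V) (κ : Set V) : LinGrp V where
  carrier := {g | g ∈ ℬ ∧ g '' κ = κ}
  one_mem' := ⟨ℬ.one_mem, Set.image_id κ⟩
  mul_mem' := by
    rintro g h ⟨hg, hg2⟩ ⟨hh, hh2⟩
    refine ⟨ℬ.mul_mem hg hh, ?_⟩
    have : (g * h : V ≃ₗ[ℝ] V) '' κ = g '' (h '' κ) := by
      rw [Set.image_image]; rfl
    rw [this, hh2, hg2]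
  inv_mem' := by
    rintro g ⟨hg, hg2⟩
    refine ⟨ℬ.inv_mem hg, ?_⟩
    have : (g⁻¹ : V ≃ₗ[ℝ] V) '' (g '' κ) = κ := by
      rw [Set.image_image]
      have h1 : ∀ x, (g⁻¹ : V ≃ₗ[ℝ] V) (g x) = x := fun x => g.symm_apply_apply x
      simp only [h1, Set.image_id']
    rwa [hg2] at this

end Pool.Agent.R299.CDE
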