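import Pool.Agent.Y167.Dom

/-!
# Cones of divisors, their groups of automorphisms, products and finite quotients: definitions
-/

set_option autoImplicit false

namespace Pool.Agent.R299.CDE

open Pool.Agent.Y167 Module

/-- The groups of linear automorphisms of the real vector space `W`. -/
abbrev LinGrp (W : Type*) [AddCommGroup W] [Module ℝ W] : Type _ := Subgroup (W ≃ₗ[ℝ] W)

/-- The cones of divisors of a projective variety: the subgroup `int` of the classes of line bundles in
the real vector space `W = N^1`, the nef cone `nef` (or another closed cone, as the closure of the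
movable cone) and the cone `eff` of the classes of effective divisors, which need not be closed. -/
structure Cones (W : Type*) [AddCommGroup W] where
  /-- the classes of line bundles -/
  int : AddSubgroup W
  /-- the nef classes -/
  nef : Set W
  /-- the effective classes -/
  eff : Set W

/-- The nef and effective classes. -/
def Cones.nefEff {W : Type*} [AddCommGroup W] (N : Cones W) : Set W := N.nef ∩ N.eff

/-- The convex hull of the rational nef classes: the classes which are combinations with nonnegative
real coefficients of finitely many integral nef classes. -/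
def Cones.nefPlus {W : Type*} [AddCommGroup W] [Module ℝ W] (N : Cones W) : Set W :=
  {x | ∃ S : Finset W, (∀ a ∈ S, a ∈ N.int ∧ a ∈ N.nef) ∧ x ∈ cone S}

/-- The properties of the cones of all projective varieties which are used: the integral classes are
the lattice spanned by a basis; the nef cone is a closed convex cone, its interior contains an integral
class and consists of effective classes; there is a linear form which is integral on the integral
classes and positive on the nef classes different from zero (the intersection number with a curve). -/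
structure Cones.IsProjective {W : Type*} [NormedAddCommGroup W] [NormedSpace ℝ W]
    (N : Cones W) : Prop where
  lattice : ∃ (n : ℕ) (b : Basis (Fin n) ℝ W), ∀ x, x ∈ N.int ↔ ∀ i, ∃ m : ℤ, b.repr x i = m
  closed : IsClosed N.nef
  add_nef : ∀ x ∈ N.nef, ∀ y ∈ N.nef, x + y ∈ N.nef
  smul_nef : ∀ t : ℝ, 0 ≤ t → ∀ x ∈ N.nef, t • x ∈ N.nef
  add_eff : ∀ x ∈ N.eff, ∀ y ∈ N.eff, x + y ∈ N.eff
  smul_eff : ∀ t : ℝ, 0 ≤ t → ∀ x ∈ N.eff, t • x ∈ N.eff
  ample : ∃ h ∈ N.int, h ∈ interior N.nef
  interior_eff : interior N.nef ⊆ N.eff
  degree : ∃ d : W →ₗ[ℝ] ℝ, (∀ x ∈ N.int, ∃ m : ℤ, d x = m) ∧ ∀ x ∈ N.nef, x ≠ 0 → 0 < d x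

/-- `𝒢` is a group of automorphisms of the cones `N` (as the image of the group of automorphisms of the
variety, or for the movable cone the image of the group of its birational automorphisms). -/
def Cones.Preserved {W : Type*} [AddCommGroup W] [Module ℝ W] (N : Cones W) (𝒢 : LinGrp W) :
    Prop :=
  ∀ g ∈ 𝒢, (∀ x ∈ N.int, g x ∈ N.int) ∧ (∀ x ∈ N.nef, g x ∈ N.nef) ∧ ∀ x ∈ N.eff, g x ∈ N.eff

/-- `P` is a fundamental domain for the action of `𝒢` on `A`: the translates of `P` cover `A`, and a
translate of `P` by `g ≠ 1` does not meet the interior of `P`. -/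
def IsFundDomain {W : Type*} [NormedAddCommGroup W] [NormedSpace ℝ W] (𝒢 : LinGrp W)
    (A P : Set W) : Prop :=
  (∀ x, x ∈ A ↔ ∃ g ∈ 𝒢, ∃ y ∈ P, x = g y) ∧ ∀ g ∈ 𝒢, g ≠ 1 → interior P ∩ g '' P = ∅

/-- **The cone conjecture** for the cones `N` and the group `𝒢`: there is a rational polyhedral cone
which is a fundamental domain for the action of `𝒢` on the cone of the nef and effective classes. -/
def Cones.ConeConjecture {W : Type*} [NormedAddCommGroup W] [NormedSpace ℝ W] (N : Cones W)
    (𝒢 : LinGrp W) : Prop :=
  ∃ S : Finset W, (∀ a ∈ S, a ∈ N.int) ∧ cone S ⊆ N.nefEff ∧ IsFundDomain 𝒢 N.nefEff (cone S)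

/-- The cones of a product of varieties `X i` such that `N^1` of the product is the direct sum of the
`N^1 (X i)`. -/
def prodCones {ι : Type*} {W : ι → Type*} [∀ i, AddCommGroup (W i)] (N : ∀ i, Cones (W i)) :
    Cones (∀ i, W i) where
  int :=
    { carrier := {x | ∀ i, x i ∈ (N i).int}
      zero_mem' := fun i => (N i).int.zero_mem
      add_mem' := fun hx hy i => (N i).int.add_mem (hx i) (hy i)
      neg_mem' := fun hx i => (N i).int.neg_mem (hx i) }
  nef := {x | ∀ i, x i ∈ (N i).nef}
  eff := {x | ∀ i, x i ∈ (N i).eff}

/-- The cones `M` (with the group `ℬ`) are those of the quotient `Y = X / G` of a variety `X` with the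
cones `N` (and the group `𝒜`) by a finite group `G`; `q` is the pullback of classes from `Y` to `X`.
The pullback is an isomorphism onto the space fixed by `G`, the integral classes of `Y` are of finite
index in the integral classes of `X` fixed by `G`, and a class is nef (effective) if and only if its
pullback is. The elements of a subgroup of finite index in the centralizer of `G` in `𝒜` come from
elements of `ℬ` (from automorphisms of `X` which commute with `G`). -/
structure IsFiniteQuotient {W V : Type*} [AddCommGroup W] [Module ℝ W] [AddCommGroup V]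
    [Module ℝ V] (N : Cones W) (𝒜 G : LinGrp W) (q : V →ₗ[ℝ] W) (M : Cones V) (ℬ : LinGrp V) :
    Prop where
  finite : Finite G
  preserved : N.Preserved G
  injective : Function.Injective q
  range : ∀ w, (∃ v, q v = w) ↔ ∀ g ∈ G, g w = w
  int : ∀ v ∈ M.int, q v ∈ N.int
  index : ∃ k : ℕ, 0 < k ∧ ∀ w ∈ N.int, (∀ g ∈ G, g w = w) → ∃ v ∈ M.int, q v = (k : ℝ) • w
  nef : ∀ v, v ∈ M.nef ↔ q v ∈ N.nef
  eff : ∀ v, v ∈ M.eff ↔ q v ∈ N.eff
  lift : ∃ Z : LinGrp W,
    (Z.subgroupOf (𝒜 ⊓ Subgroup.centralizer (G : Set (W ≃ₗ[ℝ] W)))).FiniteIndex ∧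
      ∀ z ∈ Z, ∃ b ∈ ℬ, ∀ v, q (b v) = z (q v)

end Pool.Agent.R299.CDE
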