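import Pool.Agent.R299.CDE.FaceDefs
import Pool.Agent.R299.CDE.Proj

/-!
# The cone conjecture for contractions
-/

set_option autoImplicit false

namespace Pool.Agent.R299.CDE

open Pool.Agent.Y167 Module Finset Filter Topology

variable {V U : Type*} [NormedAddCommGroup V] [NormedSpace ℝ V] [NormedAddCommGroup U]
  [NormedSpace ℝ U] {M : Cones V} {ℬ : LinGrp V} {j : U →ₗ[ℝ] V} {M' : Cones U} {ℬ' : LinGrp U}

/-- The generators which occur in a point of the face belong to the face. -/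
theorem face_split (hM : M.IsProjective) (hℬ : M.Preserved ℬ) (hj : IsContraction M ℬ j M' ℬ')
    {S : Finset V} (hS : ∀ a ∈ S, a ∈ M.nefEff) {b : V ≃ₗ[ℝ] V} (hb : b ∈ ℬ) {x : U} {y : V}
    (hy : y ∈ cone S) (hxy : j x = b y) :
    ∃ (I : Finset V) (c : V → ℝ) (u : V → U), I ⊆ S ∧ (∀ a ∈ I, 0 < c a ∧ j (u a) = b a) ∧
      x = ∑ a ∈ I, c a • u a ∧ y = ∑ a ∈ I, c a • a := by
  classical
  obtain ⟨c, hc, hyc⟩ := hy
  let I := S.filter fun a => 0 < c a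
  have hyI : y = ∑ a ∈ I, c a • a := by
    rw [hyc]
    symm
    refine Finset.sum_filter_of_ne fun a _ hne => ?_
    refine lt_of_le_of_ne (hc a) fun h0 => hne ?_
    rw [← h0, zero_smul]
  have hIS : I ⊆ S := Finset.filter_subset _ _
  have hnef : ∀ a ∈ I, c a • b a ∈ M.nef := fun a ha =>
    hM.smul_nef _ (hc a) _ ((hℬ b hb).2.1 _ (hS a (hIS ha)).1)
  have hrange : ∀ a ∈ I, ∃ u, j u = b a := by
    intro a ha
    have h1 : b y = c a • b a + ∑ a' ∈ I.erase a, c a' • b a' := by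
      rw [hyI, map_sum, Finset.add_sum_erase I (fun a' => c a' • b a') ha]
      exact Finset.sum_congr rfl fun a' _ => map_smul _ _ _
    have h2 : ∑ a' ∈ I.erase a, c a' • b a' ∈ M.nef := by
      refine Finset.sum_induction _ (· ∈ M.nef) (fun x y hx hy => hM.add_nef x hx y hy)
        (zero_mem_nefEff hM).1 fun a' ha' => hnef a' (Finset.mem_of_mem_erase ha')
    obtain ⟨u, hu⟩ := hj.face _ (hnef a ha) _ h2 ⟨x, by rw [hxy, h1]⟩
    have hpos : 0 < c a := (Finset.mem_filter.1 ha).2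
    refine ⟨(c a)⁻¹ • u, ?_⟩
    rw [map_smul, hu, smul_smul, inv_mul_cancel₀ hpos.ne', one_smul]
  choose! u hu using hrange
  refine ⟨I, c, u, hIS, fun a ha => ⟨(Finset.mem_filter.1 ha).2, hu a ha⟩, ?_, hyI⟩
  refine hj.injective ?_
  rw [hxy, hyI, map_sum, map_sum]
  refine Finset.sum_congr rfl fun a ha => ?_
  rw [map_smul, map_smul, hu a ha]

/-- An element of the group which maps an interior point of the face into the space of the face
preserves this space. -/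
theorem face_stab (hM : M.IsProjective) (hj : IsContraction M ℬ j M' ℬ') (hℬ : M.Preserved ℬ)
    {σ : V ≃ₗ[ℝ] V} (hσ : σ ∈ ℬ) {u₀ u₁ : U} (h0 : u₀ ∈ interior M'.nef) (h : σ (j u₀) = j u₁)
    {v : V} (hv : ∃ u, j u = v) : ∃ u, j u = σ v := by
  obtain ⟨u, rfl⟩ := hv
  obtain ⟨t, ht, h1⟩ := interior_move h0 u
  obtain ⟨s, hs, h2⟩ := interior_move h0 (-u)
  have h4 : s • σ (j (u₀ - t • u)) ∈ M.nef :=
    hM.smul_nef _ hs.le _ ((hℬ σ hσ).2.1 _ ((hj.nef _).1 h1))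
  have h5 : t • σ (j (u₀ - s • -u)) ∈ M.nef :=
    hM.smul_nef _ ht.le _ ((hℬ σ hσ).2.1 _ ((hj.nef _).1 h2))
  have h6 : s • σ (j (u₀ - t • u)) + t • σ (j (u₀ - s • -u)) = j ((s + t) • u₁) := by
    rw [map_smul j, ← h]
    simp only [map_sub, map_smul, map_neg, smul_sub, smul_neg, smul_smul, add_smul]
    rw [mul_comm t s]
    abel
  obtain ⟨w, hw⟩ := hj.face _ h4 _ h5 ⟨_, h6.symm⟩
  refine ⟨t⁻¹ • (u₁ - s⁻¹ • w), ?_⟩
  have h7 : s⁻¹ • j w = σ (j u₀) - t • σ (j u) := by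
    rw [hw, smul_smul, inv_mul_cancel₀ hs.ne', one_smul, map_sub, map_sub, map_smul, map_smul]
  rw [map_smul, map_sub, map_smul, h7, ← h, sub_sub_cancel, smul_smul, inv_mul_cancel₀ ht.ne',
    one_smul]

/-- **The cone conjecture for contractions.** -/
theorem contraction_main (hM : M.IsProjective) (hℬ : M.Preserved ℬ) (hconj : M.ConeConjecture ℬ)
    (hM' : M'.IsProjective) (hℬ' : M'.Preserved ℬ') (hj : IsContraction M ℬ j M' ℬ') :
    M'.ConeConjecture ℬ' ∧ M'.nefEff = M'.nefPlus := by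
  classical
  obtain ⟨S, hSint, hSc, hSf, -⟩ := hconj
  have hS : ∀ a ∈ S, a ∈ M.nefEff := fun a ha => hSc (mem_cone_self ha)
  obtain ⟨ξ, y₁, Y, D, hy₁⟩ := exists_cdata hM'
  obtain ⟨k, hk, hk2⟩ := hj.index
  have hkR : (0 : ℝ) < k := by exact_mod_cast hk
  -- every nef effective class is a combination of translates of the generators
  have hsplit : ∀ x ∈ M'.nefEff, ∃ b ∈ ℬ, ∃ (I : Finset V) (c : V → ℝ) (u : V → U), I ⊆ S ∧
      (∀ a ∈ I, 0 < c a ∧ j (u a) = b a) ∧ x = ∑ a ∈ I, c a • u a ∧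
      j x = b (∑ a ∈ I, c a • a) := by
    intro x hx
    obtain ⟨b, hb, y, hy, hxy⟩ := (hSf (j x)).1 ⟨(hj.nef x).1 hx.1, (hj.eff x).1 hx.2⟩
    obtain ⟨I, c, u, h1, h2, h3, h4⟩ := face_split hM hℬ hj hS hb hy hxy
    exact ⟨b, hb, I, c, u, h1, h2, h3, by rw [hxy, h4]⟩
  have hgen : ∀ b ∈ ℬ, ∀ I ⊆ S, ∀ u : V → U, (∀ a ∈ I, j (u a) = b a) → ∀ a ∈ I,
      (k : ℝ) • u a ∈ M'.int ∧ (k : ℝ) • u a ∈ M'.nefEff := by
    intro b hb I hI u hu a ha
    have h1 := hS a (hI ha)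
    refine ⟨hk2 _ ?_, (hj.nef _).2 ?_, (hj.eff _).2 ?_⟩
    · rw [hu a ha]; exact (hℬ b hb).1 a (hSint a (hI ha))
    · rw [map_smul, hu a ha]; exact hM.smul_nef _ hkR.le _ ((hℬ b hb).2.1 a h1.1)
    · rw [map_smul, hu a ha]; exact hM.smul_eff _ hkR.le _ ((hℬ b hb).2.2 a h1.2)
  -- the faces of the fundamental domain which occur
  let Good : Finset V → (V ≃ₗ[ℝ] V) × (V → U) → Prop := fun I p =>
    p.1 ∈ ℬ ∧ (∀ a ∈ I, j (p.2 a) = p.1 a) ∧ ∑ a ∈ I, p.2 a ∈ interior M'.nef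
  have hrep : ∀ I : Finset V, ∃ p, (∃ p, Good I p) → Good I p := by
    intro I
    by_cases h : ∃ p, Good I p
    · obtain ⟨p, hp⟩ := h
      exact ⟨p, fun _ => hp⟩
    · exact ⟨⟨1, fun _ => 0⟩, fun h2 => absurd h2 h⟩
  choose r hr using hrep
  let 𝒥 := S.powerset.filter fun I => ∃ p, Good I p
  have h𝒥 : ∀ I ∈ 𝒥, I ⊆ S ∧ Good I (r I) := by
    intro I hI
    obtain ⟨h1, h2⟩ := Finset.mem_filter.1 hI
    exact ⟨Finset.mem_powerset.1 h1, hr I h2⟩
  refine coneConjecture_of_cover hM' hℬ' D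
    (𝒥.biUnion fun I => I.image fun a => (k : ℝ) • (r I).2 a) ?_ ?_ ?_
  · intro v hv
    obtain ⟨I, hI, hv⟩ := Finset.mem_biUnion.1 hv
    obtain ⟨a, ha, rfl⟩ := Finset.mem_image.1 hv
    obtain ⟨h1, h2, h3, -⟩ := h𝒥 I hI
    exact hgen _ h2 I h1 _ h3 a ha
  · intro x hx
    have hxI : x ∈ interior M'.nef := hx.interior hM' hy₁
    obtain ⟨b, hb, I, c, u, hIS, hcu, hxs, hjx⟩ :=
      hsplit x ⟨interior_subset hxI, hM'.interior_eff hxI⟩
    -- the sum of the generators is an interior point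
    have hgood : Good I (b, u) := by
      refine ⟨hb, fun a ha => (hcu a ha).2, ?_⟩
      obtain ⟨t, ht, h1⟩ := hx
      set C : ℝ := 1 + ∑ a ∈ I, c a with hC
      have hc0 : ∀ a ∈ I, 0 ≤ c a := fun a ha => (hcu a ha).1.le
      have hCpos : 0 < C := by
        have : 0 ≤ ∑ a ∈ I, c a := Finset.sum_nonneg hc0
        linarith
      have h2 : ∑ a ∈ I, (C - c a) • u a ∈ M'.nef := by
        refine Finset.sum_induction _ (· ∈ M'.nef) (fun x y hx hy => hM'.add_nef x hx y hy)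
          (zero_mem_nefEff hM').1 fun a ha => ?_
        have h3 : c a ≤ ∑ a ∈ I, c a := Finset.single_le_sum hc0 ha
        refine hM'.smul_nef _ (by linarith) _ ((hj.nef _).2 ?_)
        rw [(hcu a ha).2]
        exact (hℬ b hb).2.1 a (hS a (hIS ha)).1
      refine Inn.interior hM' hy₁ ⟨t / C, div_pos ht hCpos, ?_⟩
      have h3 := hM'.smul_nef (1 / C) (by positivity) _ (hM'.add_nef _ h2 _ h1)
      have h4 : (1 / C) • (∑ a ∈ I, (C - c a) • u a + (x - t • y₁)) =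
          ∑ a ∈ I, u a - (t / C) • y₁ := by
        have h5 : ∑ a ∈ I, (C - c a) • u a = C • ∑ a ∈ I, u a - x := by
          rw [hxs, Finset.smul_sum, ← Finset.sum_sub_distrib]
          exact Finset.sum_congr rfl fun a _ => sub_smul _ _ _
        rw [h5]
        have h6 : C • ∑ a ∈ I, u a - x + (x - t • y₁) = C • ∑ a ∈ I, u a - t • y₁ := by abel
        rw [h6, smul_sub, smul_smul, smul_smul, one_div, inv_mul_cancel₀ hCpos.ne', one_smul,
          div_eq_inv_mul]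
      rwa [h4] at h3
    have hI𝒥 : I ∈ 𝒥 := Finset.mem_filter.2 ⟨Finset.mem_powerset.2 hIS, _, hgood⟩
    obtain ⟨-, hr1, hr2, hr3⟩ := h𝒥 I hI𝒥
    set β := (r I).1 with hβ
    set w := (r I).2 with hw
    -- the element of the group
    have hσ : β * b⁻¹ ∈ ℬ := ℬ.mul_mem hr1 (ℬ.inv_mem hb)
    have hσ' : b * β⁻¹ ∈ ℬ := ℬ.mul_mem hb (ℬ.inv_mem hr1)
    have hbinv : ∀ z, (b⁻¹ : V ≃ₗ[ℝ] V) (b z) = z := fun z => b.symm_apply_apply z
    have hβinv : ∀ z, (β⁻¹ : V ≃ₗ[ℝ] V) (β z) = z := fun z => β.symm_apply_apply z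
    have hju : j (∑ a ∈ I, u a) = b (∑ a ∈ I, a) := by
      rw [map_sum, map_sum]
      exact Finset.sum_congr rfl fun a ha => (hcu a ha).2
    have hjw : j (∑ a ∈ I, w a) = β (∑ a ∈ I, a) := by
      rw [map_sum, map_sum]
      exact Finset.sum_congr rfl fun a ha => hr2 a ha
    have e1 : (β * b⁻¹) (j (∑ a ∈ I, u a)) = j (∑ a ∈ I, w a) := by
      rw [hju, hjw]
      have : (β * b⁻¹) (b (∑ a ∈ I, a)) = β ((b⁻¹ : V ≃ₗ[ℝ] V) (b (∑ a ∈ I, a))) := rfl
      rw [this, hbinv]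
    have e2 : (b * β⁻¹) (j (∑ a ∈ I, w a)) = j (∑ a ∈ I, u a) := by
      rw [hju, hjw]
      have : (b * β⁻¹) (β (∑ a ∈ I, a)) = b ((β⁻¹ : V ≃ₗ[ℝ] V) (β (∑ a ∈ I, a))) := rfl
      rw [this, hβinv]
    obtain ⟨b', hb', hb'j⟩ := hj.descend _ hσ (fun v => ⟨fun hv =>
      face_stab hM hj hℬ hσ hgood.2.2 e1 hv, fun hv => by
        have h1 := face_stab hM hj hℬ hσ' hr3 e2 hv
        have h2 : (b * β⁻¹) ((β * b⁻¹) v) = (b * β⁻¹ * (β * b⁻¹)) v := rfl
        have h3 : b * β⁻¹ * (β * b⁻¹) = 1 := by group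
        rw [h2, h3] at h1
        exact h1⟩)
    refine ⟨b', hb', ?_⟩
    have h1 : b' x = ∑ a ∈ I, (c a * (k : ℝ)⁻¹) • ((k : ℝ) • w a) := by
      refine hj.injective ?_
      rw [hb'j, hjx]
      have h2 : (β * b⁻¹) (b (∑ a ∈ I, c a • a)) =
        β ((b⁻¹ : V ≃ₗ[ℝ] V) (b (∑ a ∈ I, c a • a))) := rfl
      rw [h2, hbinv, map_sum, map_sum]
      refine Finset.sum_congr rfl fun a ha => ?_
      rw [smul_smul, mul_assoc, inv_mul_cancel₀ hkR.ne', mul_one, map_smul, map_smul, hr2 a ha]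
    rw [h1]
    refine cone_sum _ _ fun a ha => cone_smul (mem_cone_self ?_) (mul_nonneg (hcu a ha).1.le
      (inv_nonneg.2 hkR.le))
    exact Finset.mem_biUnion.2 ⟨I, hI𝒥, Finset.mem_image_of_mem _ ha⟩
  · intro x hx
    obtain ⟨b, hb, I, c, u, hIS, hcu, hxs, -⟩ := hsplit x hx
    have h1 := hgen b hb I hIS u fun a ha => (hcu a ha).2
    refine ⟨I.image fun a => (k : ℝ) • u a, ?_, ?_⟩
    · intro v hv
      obtain ⟨a, ha, rfl⟩ := Finset.mem_image.1 hv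
      exact ⟨(h1 a ha).1, (h1 a ha).2.1⟩
    · rw [hxs]
      refine cone_sum _ _ fun a ha => ?_
      have h2 : c a • u a = (c a * (k : ℝ)⁻¹) • ((k : ℝ) • u a) := by
        rw [smul_smul, mul_assoc, inv_mul_cancel₀ hkR.ne', mul_one]
      rw [h2]
      exact cone_smul (mem_cone_self (Finset.mem_image_of_mem _ ha))
        (mul_nonneg (hcu a ha).1.le (inv_nonneg.2 hkR.le))

end Pool.Agent.R299.CDE
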