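import Pool.Agent.R299.CDE.Defs

/-!
# Contractions: definitions
-/

set_option autoImplicit false

namespace Pool.Agent.R299.CDE

/-- The cones `M'` (with the group `ℬ'`) are those of a variety `Y'` which is the image of a contraction
`Y → Y'` (birational or a fibre space) of a variety `Y` with the cones `M` (and the group `ℬ`); `j` is the
pullback of classes from `Y'` to `Y`. The pullback is injective and respects integral classes, a class is
nef (effective) if and only if its pullback is, the integral classes of `Y` which are pullbacks have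
multiples which are pullbacks of integral classes, and the nef pullbacks are a face of the nef cone of
`Y`: if a sum of nef classes is a pullback then the summands are pullbacks. The elements of `ℬ` which
preserve the space of the pullbacks (the automorphisms of `Y` compatible with the contraction) induce
elements of `ℬ'`. -/
structure IsContraction {V U : Type*} [AddCommGroup V] [Module ℝ V] [AddCommGroup U]
    [Module ℝ U] (M : Cones V) (ℬ : LinGrp V) (j : U →ₗ[ℝ] V) (M' : Cones U) (ℬ' : LinGrp U) :
    Prop where
  injective : Function.Injective j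
  int : ∀ u ∈ M'.int, j u ∈ M.int
  index : ∃ k : ℕ, 0 < k ∧ ∀ u, j u ∈ M.int → (k : ℝ) • u ∈ M'.int
  nef : ∀ u, u ∈ M'.nef ↔ j u ∈ M.nef
  eff : ∀ u, u ∈ M'.eff ↔ j u ∈ M.eff
  face : ∀ x ∈ M.nef, ∀ y ∈ M.nef, (∃ u, j u = x + y) → ∃ u, j u = x
  descend : ∀ b ∈ ℬ, (∀ v, (∃ u, j u = v) ↔ ∃ u, j u = b v) →
    ∃ b' ∈ ℬ', ∀ u, j (b' u) = b (j u)

end Pool.Agent.R299.CDE
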