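import Pool.Agent.R299.CDE.Proj

/-!
# The cone conjecture for finite quotients of products
-/

set_option autoImplicit false

namespace Pool.Agent.R299.CDE

open Pool.Agent.Y167 Module Finset Filter Topology

section product

variable {ι : Type*} [Fintype ι] {W : ι → Type*} [∀ i, NormedAddCommGroup (W i)]
  [∀ i, NormedSpace ℝ (W i)] {N : ∀ i, Cones (W i)}

theorem prod_projective (hN : ∀ i, (N i).IsProjective) : (prodCones N).IsProjective := by
  classical
  have hint : interior (prodCones N).nef = {x | ∀ i, x i ∈ interior (N i).nef} := by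
    have h1 : (prodCones N).nef = Set.pi Set.univ fun i => (N i).nef := by
      ext x
      simp [prodCones]
    rw [h1, interior_pi_set Set.finite_univ]
    ext x
    simp
  refine
    { lattice := ?_
      closed := ?_
      add_nef := fun x hx y hy i => (hN i).add_nef _ (hx i) _ (hy i)
      smul_nef := fun t ht x hx i => (hN i).smul_nef t ht _ (hx i)
      add_eff := fun x hx y hy i => (hN i).add_eff _ (hx i) _ (hy i)
      smul_eff := fun t ht x hx i => (hN i).smul_eff t ht _ (hx i)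
      ample := ?_
      interior_eff := ?_
      degree := ?_ }
  · choose n b hb using fun i => (hN i).lattice
    let e := Fintype.equivFin (Σ i, Fin (n i))
    refine ⟨_, (Pi.basis b).reindex e, fun x => ?_⟩
    constructor
    · intro hx j
      rw [Basis.repr_reindex_apply, Pi.basis_repr]
      exact (hb _ _).1 (hx _) _
    · intro h i
      refine (hb i _).2 fun j => ?_
      have := h (e ⟨i, j⟩)
      rw [Basis.repr_reindex_apply, Pi.basis_repr, Equiv.symm_apply_apply] at this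
      exact this
  · have h1 : (prodCones N).nef = ⋂ i, (fun x : ∀ i, W i => x i) ⁻¹' (N i).nef := by
      ext x
      simp [prodCones]
    rw [h1]
    exact isClosed_iInter fun i => (hN i).closed.preimage (continuous_apply i)
  · choose h hL hI using fun i => (hN i).ample
    exact ⟨h, hL, by rw [hint]; exact hI⟩
  · intro x hx i
    rw [hint] at hx
    exact (hN i).interior_eff (hx i)
  · choose d hd1 hd2 using fun i => (hN i).degree
    have hd0 : ∀ i, ∀ x ∈ (N i).nef, 0 ≤ d i x := by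
      intro i x hx
      by_cases h0 : x = 0
      · rw [h0, map_zero]
      · exact (hd2 i x hx h0).le
    refine ⟨∑ i, (d i).comp (LinearMap.proj i), fun x hx => ?_, fun x hx h0 => ?_⟩
    · choose m hm using fun i => hd1 i (x i) (hx i)
      refine ⟨∑ i, m i, ?_⟩
      rw [LinearMap.sum_apply]
      push_cast
      exact Finset.sum_congr rfl fun i _ => hm i
    · rw [LinearMap.sum_apply]
      obtain ⟨i, hi⟩ := Function.ne_iff.1 h0
      exact Finset.sum_pos' (fun j _ => hd0 j _ (hx j)) ⟨i, Finset.mem_univ i, hd2 i _ (hx i) hi⟩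

/-- The cone conjecture for the factors gives a covering for the product. -/
theorem prod_cover (hN : ∀ i, (N i).IsProjective) (𝒢 : ∀ i, LinGrp (W i))
    (hconj : ∀ i, (N i).ConeConjecture (𝒢 i)) (𝒜 : LinGrp (∀ i, W i))
    (hprod : ∀ γ : ∀ i, W i ≃ₗ[ℝ] W i, (∀ i, γ i ∈ 𝒢 i) → LinearEquiv.piCongrRight γ ∈ 𝒜) :
    ∃ F : Finset (∀ i, W i), (∀ a ∈ F, a ∈ (prodCones N).int ∧ a ∈ (prodCones N).nefEff) ∧
      ∀ x ∈ (prodCones N).nefEff, ∃ g ∈ 𝒜, g x ∈ cone F := by
  classical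
  choose S hS hSc hSf using hconj
  refine ⟨Finset.univ.biUnion fun i => (S i).image fun a => Pi.single i a, ?_, ?_⟩
  · intro a ha
    obtain ⟨i, -, ha1⟩ := Finset.mem_biUnion.1 ha
    obtain ⟨a, ha2, rfl⟩ := Finset.mem_image.1 ha1
    have h1 := hSc i (mem_cone_self ha2)
    refine ⟨fun j => ?_, fun j => ?_, fun j => ?_⟩
    · by_cases hj : j = i
      · subst hj; rw [Pi.single_eq_same]; exact hS _ a ha2
      · rw [Pi.single_eq_of_ne hj]; exact (N j).int.zero_mem
    · by_cases hj : j = i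
      · subst hj; rw [Pi.single_eq_same]; exact h1.1
      · rw [Pi.single_eq_of_ne hj]; exact (zero_mem_nefEff (hN j)).1
    · by_cases hj : j = i
      · subst hj; rw [Pi.single_eq_same]; exact h1.2
      · rw [Pi.single_eq_of_ne hj]; exact (zero_mem_nefEff (hN j)).2
  · intro x hx
    have h1 : ∀ i, ∃ g ∈ 𝒢 i, ∃ y ∈ cone (S i), x i = g y := fun i =>
      ((hSf i).1 (x i)).1 ⟨hx.1 i, hx.2 i⟩
    choose g hg y hy hxy using h1
    refine ⟨LinearEquiv.piCongrRight fun i => (g i)⁻¹, hprod _ fun i => (𝒢 i).inv_mem (hg i), ?_⟩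
    have h2 : (LinearEquiv.piCongrRight fun i => (g i)⁻¹) x = ∑ i, Pi.single i (y i) := by
      rw [Finset.univ_sum_single]
      funext i
      rw [LinearEquiv.piCongrRight_apply, hxy i]
      have : (g i)⁻¹ ((g i) (y i)) = ((g i)⁻¹ * g i) (y i) := rfl
      rw [this, inv_mul_cancel]; rfl
    rw [h2]
    refine cone_sum _ _ fun i _ => ?_
    have h3 : (LinearMap.single ℝ W i) (y i) ∈ cone ((S i).image (LinearMap.single ℝ W i)) :=
      cone_image _ (hy i)
    exact cone_mono (Finset.subset_biUnion_of_mem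
      (fun i => (S i).image fun a => (Pi.single i a : ∀ i, W i)) (Finset.mem_univ i)) h3

end product

section quotient

variable {W V : Type*} [NormedAddCommGroup W] [NormedSpace ℝ W] [NormedAddCommGroup V]
  [NormedSpace ℝ V] {N : Cones W} {𝒜 G : LinGrp W} {q : V →ₗ[ℝ] W} {M : Cones V} {ℬ : LinGrp V}

/-- The sum over the finite group. -/
noncomputable def avg (G : LinGrp W) [Fintype G] : W →ₗ[ℝ] W := ∑ g : G, (g.1 : W →ₗ[ℝ] W)

theorem avg_apply [Fintype G] (w : W) : avg G w = ∑ g : G, g.1 w := by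
  rw [avg, LinearMap.sum_apply]; rfl

theorem avg_fixed [Fintype G] {g : W ≃ₗ[ℝ] W} (hg : g ∈ G) (w : W) : g (avg G w) = avg G w := by
  rw [avg_apply, map_sum]
  exact Fintype.sum_equiv (Equiv.mulLeft (⟨g, hg⟩ : G)) _ _ fun h => rfl

theorem avg_of_fixed [Fintype G] {w : W} (hw : ∀ g ∈ G, g w = w) :
    avg G w = (Fintype.card G : ℝ) • w := by
  rw [avg_apply, Finset.sum_congr rfl fun g _ => hw g.1 g.2, Finset.sum_const, Finset.card_univ,
    Nat.cast_smul_eq_nsmul]

theorem quotient_main (hN : N.IsProjective) (h𝒜 : N.Preserved 𝒜)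
    (F : Finset W) (hF : ∀ a ∈ F, a ∈ N.int ∧ a ∈ N.nefEff)
    (hcov : ∀ x ∈ N.nefEff, ∃ g ∈ 𝒜, g x ∈ cone F)
    (hM : M.IsProjective) (hℬ : M.Preserved ℬ) (hq : IsFiniteQuotient N 𝒜 G q M ℬ) :
    M.ConeConjecture ℬ ∧ M.nefEff = M.nefPlus := by
  classical
  have : Finite G := hq.finite
  have : Fintype G := Fintype.ofFinite G
  obtain ⟨ξ, y₀, Y, D, hy₀⟩ := exists_cdata hN
  obtain ⟨ξ', y₁, Y', D', hy₁⟩ := exists_cdata hM
  obtain ⟨k, hk, hk2⟩ := hq.index
  obtain ⟨Z, hZ, hZ2⟩ := hq.lift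
  have hkR : (0 : ℝ) < k := by exact_mod_cast hk
  have hcard : (0 : ℝ) < Fintype.card G := by exact_mod_cast Fintype.card_pos
  -- properties of the sum over the group
  have hsum : ∀ (P : W → Prop), P 0 → (∀ x y, P x → P y → P (x + y)) →
      ∀ (s : Finset G) (f : G → W), (∀ g ∈ s, P (f g)) → P (∑ g ∈ s, f g) := by
    intro P h0 hadd s f hf
    exact Finset.sum_induction f P hadd h0 hf
  have h0 := zero_mem_nefEff hN
  have havg_int : ∀ w ∈ N.int, avg G w ∈ N.int := by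
    intro w hw
    rw [avg_apply]
    exact hsum (· ∈ N.int) N.int.zero_mem (fun x y => N.int.add_mem) _ _
      fun g _ => (hq.preserved g.1 g.2).1 w hw
  have havg_nef : ∀ w ∈ N.nef, avg G w ∈ N.nef := by
    intro w hw
    rw [avg_apply]
    exact hsum (· ∈ N.nef) h0.1 (fun x y hx hy => hN.add_nef x hx y hy) _ _
      fun g _ => (hq.preserved g.1 g.2).2.1 w hw
  have havg_eff : ∀ w ∈ N.eff, avg G w ∈ N.eff := by
    intro w hw
    rw [avg_apply]
    exact hsum (· ∈ N.eff) h0.2 (fun x y hx hy => hN.add_eff x hx y hy) _ _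
      fun g _ => (hq.preserved g.1 g.2).2.2 w hw
  have hu : ∀ w, ∃ v, w ∈ N.int → v ∈ M.int ∧ q v = (k : ℝ) • avg G w := by
    intro w
    by_cases hw : w ∈ N.int
    · obtain ⟨v, h1, h2⟩ := hk2 _ (havg_int w hw) fun g hg => avg_fixed hg w
      exact ⟨v, fun _ => ⟨h1, h2⟩⟩
    · exact ⟨0, fun h => absurd h hw⟩
  choose u hu using hu
  have hu_nefEff : ∀ w ∈ N.int, w ∈ N.nefEff → u w ∈ M.nefEff := by
    intro w hw hw2
    obtain ⟨h1, h2⟩ := hu w hw
    refine ⟨(hq.nef _).2 ?_, (hq.eff _).2 ?_⟩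
    · rw [h2]; exact hN.smul_nef _ hkR.le _ (havg_nef _ hw2.1)
    · rw [h2]; exact hN.smul_eff _ hkR.le _ (havg_eff _ hw2.2)
  have hfix : ∀ v, ∀ g ∈ G, g (q v) = q v := fun v => (hq.range _).1 ⟨v, rfl⟩
  -- the main computation
  have hcomp : ∀ γ ∈ 𝒜, ∀ y ∈ cone F, ∀ v, q v = γ y →
      v ∈ cone (F.image fun a => u (γ a)) := by
    rintro γ hγ y ⟨c, hc, rfl⟩ v hv
    have h1 : q (((k : ℝ) * Fintype.card G) • v) = q (∑ a ∈ F, c a • u (γ a)) := by
      have h2 : avg G (q v) = (Fintype.card G : ℝ) • q v := avg_of_fixed (hfix v)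
      rw [map_smul, mul_smul, ← h2, hv]
      simp only [map_sum, map_smul, Finset.smul_sum]
      refine Finset.sum_congr rfl fun a ha => ?_
      rw [(hu _ ((h𝒜 γ hγ).1 a (hF a ha).1)).2, smul_comm]
    have h3 := hq.injective h1
    have hpos : (0 : ℝ) < (k : ℝ) * Fintype.card G := mul_pos hkR hcard
    have h4 : v = ((k : ℝ) * Fintype.card G)⁻¹ • ∑ a ∈ F, c a • u (γ a) := by
      rw [← h3, smul_smul, inv_mul_cancel₀ hpos.ne', one_smul]
    rw [h4]
    refine cone_smul (cone_sum _ _ fun a ha => cone_smul (mem_cone_self ?_) (hc a))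
      (inv_pos.2 hpos).le
    exact Finset.mem_image_of_mem _ ha
  have hAint : ∀ γ ∈ 𝒜, ∀ a ∈ F, γ a ∈ N.int ∧ γ a ∈ N.nefEff := fun γ hγ a ha =>
    ⟨(h𝒜 γ hγ).1 a (hF a ha).1, (h𝒜 γ hγ).2.1 a (hF a ha).2.1, (h𝒜 γ hγ).2.2 a (hF a ha).2.2⟩
  obtain ⟨R, hR, hRc⟩ := fixed_cover D 𝒜 G Z (fun g hg => (h𝒜 g hg).1)
    (fun g hg => (h𝒜 g hg).2.1) (fun g hg => (hq.preserved g hg).1)
    (fun g hg => (hq.preserved g hg).2.1) hZ F (fun a ha => ⟨(hF a ha).1, (hF a ha).2.1⟩)
    (fun x hx => hcov x ⟨hx.mem D, hN.interior_eff (hx.interior hN hy₀)⟩)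
  refine coneConjecture_of_cover hM hℬ D' ((R ×ˢ F).image fun p => u (p.1 p.2)) ?_ ?_ ?_
  · intro v hv
    obtain ⟨⟨r, a⟩, hp, rfl⟩ := Finset.mem_image.1 hv
    obtain ⟨hr, ha⟩ := Finset.mem_product.1 hp
    obtain ⟨h1, h2⟩ := hAint r (hR r hr) a ha
    exact ⟨(hu _ h1).1, hu_nefEff _ h1 h2⟩
  · intro x hx
    -- `q x` is an interior point
    have hin : Inn N.nef y₀ (q x) := by
      obtain ⟨t, ht, h1⟩ := hx
      obtain ⟨C, hC, h2⟩ := D'.y_int (u y₀)
      have h3 := hM.add_nef _ h1 _ (hM.smul_nef (t / C) (div_pos ht hC).le _ h2)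
      have h4 : x - t • y₁ + (t / C) • (C • y₁ - u y₀) = x - (t / C) • u y₀ := by
        rw [smul_sub, smul_smul, div_mul_cancel₀ _ hC.ne']; abel
      rw [h4, hq.nef, map_sub, map_smul, (hu y₀ D.y_L).2] at h3
      have h5 : avg G y₀ - y₀ ∈ N.nef := by
        have h6 : avg G y₀ - y₀ = ∑ g ∈ Finset.univ.erase (1 : G), g.1 y₀ := by
          rw [avg_apply, ← Finset.add_sum_erase _ _ (Finset.mem_univ (1 : G))]
          have : (1 : G).1 y₀ = y₀ := rfl
          rw [this]; abel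
        rw [h6]
        exact hsum (· ∈ N.nef) h0.1 (fun x y hx hy => hN.add_nef x hx y hy) _ _
          fun g _ => (hq.preserved g.1 g.2).2.1 _ D.y_N
      have hpos : 0 < t / C * k := mul_pos (div_pos ht hC) hkR
      refine ⟨t / C * k, hpos, ?_⟩
      have h7 := hN.add_nef _ h3 _ (hN.smul_nef _ hpos.le _ h5)
      have h8 : q x - (t / C) • (k : ℝ) • avg G y₀ + (t / C * k) • (avg G y₀ - y₀) =
          q x - (t / C * k) • y₀ := by
        rw [smul_smul, smul_sub]; abel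
      rwa [h8] at h7
    obtain ⟨z, hz, r, hr, y, hy, hzy⟩ := hRc (q x) hin (hfix x)
    obtain ⟨b, hb, hbz⟩ := hZ2 z hz
    refine ⟨b, hb, ?_⟩
    have h1 := hcomp r (hR r hr) y hy (b x) (by rw [hbz, hzy])
    refine cone_mono ?_ h1
    intro v hv
    obtain ⟨a, ha, rfl⟩ := Finset.mem_image.1 hv
    exact Finset.mem_image.2 ⟨(r, a), Finset.mem_product.2 ⟨hr, ha⟩, rfl⟩
  · intro x hx
    obtain ⟨g, hg, hgx⟩ := hcov (q x) ⟨(hq.nef x).1 hx.1, (hq.eff x).1 hx.2⟩
    have h1 := hcomp g⁻¹ (𝒜.inv_mem hg) _ hgx x (by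
      have : g⁻¹ (g (q x)) = (g⁻¹ * g) (q x) := rfl
      rw [this, inv_mul_cancel]; rfl)
    refine ⟨_, ?_, h1⟩
    intro v hv
    obtain ⟨a, ha, rfl⟩ := Finset.mem_image.1 hv
    obtain ⟨h2, h3⟩ := hAint _ (𝒜.inv_mem hg) a ha
    exact ⟨(hu _ h2).1, (hu_nefEff _ h2 h3).1⟩

end quotient

end Pool.Agent.R299.CDE
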